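import Mathlib
import Pool.Agent.W980.Esy.Arith

/-!
Arithmetic of the parameters.
-/

set_option autoImplicit false

namespace Pool.Agent.W980.St

open Pool.Agent.W980.Esy (x_pow U_large)

lemma small2 {t κ G n l m c : ℕ} {NN : ℝ} (hNN : 0 < NN) (ht : 32 ≤ t)
    (hG : 2 * (G + 2) ≤ t * κ) (hmn : m * (2 * t + 1) ≤ n) (hGe : G = 512 * (n + 2 ^ l) ^ 4)
    (hc : c ≤ 2 ^ (l + n + 1)) :
    (((((2 ^ (2 * t)) ^ m) ^ (2 ^ l) * (c * c) ^ (2 ^ l) : ℕ) : ℝ)) *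
      (3 * ((NN * (4 / 2 ^ t)) / (NN / ((2 : ℝ) ^ (t / 8)) ^ 2)) ^ κ) < 1 := by
  have e1 : (NN * (4 / 2 ^ t)) / (NN / ((2 : ℝ) ^ (t / 8)) ^ 2) =
      (4 : ℝ) * ((2 : ℝ) ^ (t / 8)) ^ 2 / 2 ^ t := by
    field_simp
  rw [e1]
  obtain ⟨ρ, hρ⟩ : ∃ ρ : ℝ, ρ = ((4 : ℝ) * ((2 : ℝ) ^ (t / 8)) ^ 2 / 2 ^ t) ^ κ := ⟨_, rfl⟩
  have hρ1 : ρ ≤ 1 / 2 ^ (G + 2) := by rw [hρ]; exact x_pow ht hG
  have hρ0 : 0 ≤ ρ := by rw [hρ]; positivity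
  rw [← hρ]
  obtain ⟨L, hL⟩ : ∃ L, L = 2 ^ l := ⟨_, rfl⟩
  obtain ⟨a, ha⟩ : ∃ a, a = n + L := ⟨_, rfl⟩
  have hL1 : 1 ≤ L := by rw [hL]; exact Nat.one_le_two_pow
  have hlL : l ≤ L := by rw [hL]; exact Nat.lt_two_pow_self.le
  rw [← hL] at hGe ⊢
  have h1 : ((2 ^ (2 * t)) ^ m) ^ L * (c * c) ^ L ≤ 2 ^ G := by
    have h2 : (2 ^ (2 * t)) ^ m ≤ 2 ^ n := by
      rw [← pow_mul]
      apply Nat.pow_le_pow_right (by norm_num)
      calc 2 * t * m ≤ m * (2 * t + 1) := by ring_nf; omega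
        _ ≤ n := hmn
    calc ((2 ^ (2 * t)) ^ m) ^ L * (c * c) ^ L ≤ (2 ^ n) ^ L * (2 ^ (l + n + 1) * 2 ^ (l + n + 1)) ^ L :=
          Nat.mul_le_mul (Nat.pow_le_pow_left h2 L)
            (Nat.pow_le_pow_left (Nat.mul_le_mul hc hc) L)
      _ = 2 ^ (n * L + (l + n + 1 + (l + n + 1)) * L) := by
          rw [← pow_mul, ← pow_add, ← pow_mul, ← pow_add]
      _ ≤ 2 ^ G := by
          apply Nat.pow_le_pow_right (by norm_num)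
          rw [hGe, ← ha]
          have hn : n ≤ a := by omega
          have hLa : L ≤ a := by omega
          have h3 : l + n + 1 + (l + n + 1) ≤ 6 * a := by omega
          calc n * L + (l + n + 1 + (l + n + 1)) * L ≤ a * a + 6 * a * a :=
                Nat.add_le_add (Nat.mul_le_mul hn hLa) (Nat.mul_le_mul h3 hLa)
            _ = 7 * a ^ 2 := by ring
            _ ≤ 512 * a ^ 4 := Nat.mul_le_mul (by norm_num)
                (Nat.pow_le_pow_right (by omega) (by norm_num))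
  have h2 : ((((2 ^ (2 * t)) ^ m) ^ L * (c * c) ^ L : ℕ) : ℝ) ≤ 2 ^ G := by exact_mod_cast h1
  calc _ ≤ (2 : ℝ) ^ G * (3 * (1 / 2 ^ (G + 2))) := by
        apply mul_le_mul h2 _ (by positivity) (by positivity)
        linarith
    _ = 3 / 4 := by
        rw [pow_add]
        field_simp
        norm_num
    _ < 1 := by norm_num

lemma fin2 {t m L : ℕ} (hm : 1 ≤ m) (hL : 1 ≤ L) (hU : 32 * L ^ 2 ≤ 2 ^ (t / 8)) :
    (L : ℝ) * (((((2 ^ (2 * t) : ℕ) : ℝ)) ^ m / ((2 : ℝ) ^ (t / 8)) ^ 2) + 1) <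
      (((2 ^ (2 * t) : ℕ) : ℝ)) ^ m / 4 := by
  obtain ⟨U, hUd⟩ : ∃ U : ℝ, U = (2 : ℝ) ^ (t / 8) := ⟨_, rfl⟩
  obtain ⟨NN, hNN⟩ : ∃ NN : ℝ, NN = (((2 ^ (2 * t) : ℕ) : ℝ)) ^ m := ⟨_, rfl⟩
  have hU' : 32 * (L : ℝ) ^ 2 ≤ U := by rw [hUd]; exact_mod_cast hU
  have hLR : (1 : ℝ) ≤ L := by exact_mod_cast hL
  have hNU : U ≤ NN := by
    rw [hNN, hUd]
    push_cast
    rw [← pow_mul]
    apply pow_le_pow_right₀ (by norm_num)
    calc t / 8 ≤ 2 * t * 1 := by omega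
      _ ≤ 2 * t * m := Nat.mul_le_mul_left _ hm
  rw [← hUd, ← hNN]
  have hL2 : (L : ℝ) ≤ L ^ 2 := by nlinarith
  have hLU : 32 * (L : ℝ) ≤ U := by linarith
  have hU0 : 0 < U := by linarith
  have hU32 : 32 ≤ U := by linarith
  have hNN0 : 0 < NN := lt_of_lt_of_le hU0 hNU
  have h1 : (L : ℝ) * (NN / U ^ 2) ≤ NN / 32 := by
    rw [mul_div_assoc', div_le_div_iff₀ (by positivity) (by norm_num)]
    have h2 : 32 * (L : ℝ) ≤ U ^ 2 := by nlinarith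
    nlinarith
  have h2 : (L : ℝ) ≤ NN / 32 := by
    rw [le_div_iff₀ (by norm_num)]
    linarith
  have h3 : (L : ℝ) * (NN / U ^ 2 + 1) = (L : ℝ) * (NN / U ^ 2) + L := by ring
  rw [h3]
  linarith

end Pool.Agent.W980.St
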