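import Mathlib
import Pool.Agent.W964.Wd.Machine
import Pool.Agent.H592R3.Defs

/-!
Counterexample computations of parallel machines.
-/

set_option autoImplicit false

namespace Pool.Agent.W980.St

open Pool.Agent.W964.Wd SmallDepth

/-- The assignment `α` is smaller than the assignment `β` in the lexicographic order. -/
def LexLt {n : ℕ} (α β : Fin n → Bool) : Prop :=
  ∃ i, (∀ j, j < i → α j = β j) ∧ α i = false ∧ β i = true

/-- The solution `z` is better than the solution `y`. A solution is an assignment or `none`, which
is the trivial solution; the assignments are ordered lexicographically. -/
def Better {n : ℕ} : Option (Fin n → Bool) → Option (Fin n → Bool) → Prop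
  | _, none => False
  | none, some _ => True
  | some α, some β => LexLt α β

/-- The feasible solutions of a CNF formula are the trivial solution and the models. -/
def Feasible {n M : ℕ} (x : Fin M × Fin n × Bool → Bool) (y : Option (Fin n → Bool)) : Prop :=
  ∀ α, y = some α → Models x α

/-- A feasible solution is optimal if no feasible solution is better. -/
def Optimal {n M : ℕ} (x : Fin M × Fin n × Bool → Bool) (y : Option (Fin n → Bool)) : Prop :=
  Feasible x y ∧ ∀ z, Feasible x z → ¬ Better y z

/-- An honest teacher answers every `y` that is not optimal with a counterexample `z`: either `y`
is not feasible (and `z` may be anything), or `z` is feasible and better than `y`. -/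
def Honest {n M : ℕ} (x : Fin M × Fin n × Bool → Bool)
    (teacher : Option (Fin n → Bool) → Option (Fin n → Bool)) : Prop :=
  ∀ y, ¬ Optimal x y → ¬ Feasible x y ∨ (Feasible x (teacher y) ∧ Better y (teacher y))

/-- A parallel student with `P` processors. When the solutions presented so far and the
counterexamples of the teacher are the list `h : List (Y × Y)`, the ideal parallel random access
machine `mach h` (whose processors know `h`, the programs may be different for different `h`)
works on the input and then presents the solution `pres h v`, where `v` is its result. -/
structure Student (J Y : Type) (P : ℕ) where
  mach : List (Y × Y) → Machine Bool J P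
  pres : (h : List (Y × Y)) → (mach h).V → Y

namespace Student

variable {J Y : Type} {P : ℕ}

/-- The solution presented after `T` steps on the input `x` when the history is `h`. -/
noncomputable def present (D : Student J Y P) (T : ℕ) (x : J → Bool) (h : List (Y × Y)) : Y :=
  D.pres h ((D.mach h).result T x)

/-- The first `i` solutions presented on the input `x`, with the counterexamples of the
teacher. -/
noncomputable def history (D : Student J Y P) (T : ℕ) (teacher : Y → Y) (x : J → Bool) :
    ℕ → List (Y × Y)
  | 0 => []
  | i + 1 => history D T teacher x i ++
      [(D.present T x (history D T teacher x i), teacher (D.present T x (history D T teacher x i)))]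

/-- The solution presented after `i` questions. -/
noncomputable def solution (D : Student J Y P) (T : ℕ) (teacher : Y → Y) (x : J → Bool) (i : ℕ) :
    Y := D.present T x (D.history T teacher x i)

/-- All lists of cells searched by the machines have length at most `K`. -/
def Lists (D : Student J Y P) (K : ℕ) : Prop := ∀ h, (D.mach h).Lists K

end Student

end Pool.Agent.W980.St
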