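import Mathlib
import Pool.Agent.W980.St.Defs
import Pool.Agent.H592R3.Cnf

/-!
Many CNF formulas in one CNF formula: the first variables select the formula.
-/

set_option autoImplicit false

namespace Pool.Agent.W980.St

open Finset SmallDepth H568R2

/-! ### The lexicographic order -/

lemma lexLt_irrefl {n : ℕ} (α : Fin n → Bool) : ¬ LexLt α α := by
  rintro ⟨i, _, h1, h2⟩
  rw [h1] at h2; cases h2

lemma lexLt_asymm {n : ℕ} {α β : Fin n → Bool} (h : LexLt α β) : ¬ LexLt β α := by
  rintro ⟨j, hj, h1, h2⟩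
  obtain ⟨i, hi, h3, h4⟩ := h
  rcases lt_trichotomy i j with h | h | h
  · rw [hj i h, h3] at h4; cases h4
  · subst h
    rw [h3] at h2; cases h2
  · rw [hi j h, h1] at h2; cases h2

lemma better_asymm {n : ℕ} (y z : Option (Fin n → Bool)) (h : Better y z) : ¬ Better z y := by
  cases y with
  | none =>
    cases z with
    | none => exact fun h' => h'
    | some β => exact fun h' => h'
  | some α =>
    cases z with
    | none => exact absurd h id
    | some β => exact lexLt_asymm h

/-- The bits of a number, the most significant bit first. -/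
def sel (l : ℕ) (b : ℕ) (i : Fin l) : Bool := b.testBit (l - 1 - i.val)

lemma sel_lt {l b b' : ℕ} (h : b < b') (hb' : b' < 2 ^ l) : LexLt (sel l b) (sel l b') := by
  have hne : b ^^^ b' ≠ 0 := by
    intro h0
    rw [Nat.xor_eq_zero_iff] at h0
    omega
  obtain ⟨i, hi1, hi2⟩ := Nat.exists_most_significant_bit hne
  have hi2' : ∀ j, i < j → b.testBit j = b'.testBit j := by
    intro j hj
    have := hi2 j hj
    rw [Nat.testBit_xor] at this
    revert this
    cases b.testBit j <;> cases b'.testBit j <;> simp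
  rw [Nat.testBit_xor] at hi1
  have hil : i < l := by
    by_contra hcon
    push Not at hcon
    have h1 : b'.testBit i = false := Nat.testBit_lt_two_pow
      (lt_of_lt_of_le hb' (Nat.pow_le_pow_right (by norm_num) hcon))
    have h2 : b.testBit i = false := Nat.testBit_lt_two_pow
      (lt_of_lt_of_le (h.trans hb') (Nat.pow_le_pow_right (by norm_num) hcon))
    rw [h1, h2] at hi1
    cases hi1
  have hbi : b.testBit i = false ∧ b'.testBit i = true := by
    cases h1 : b.testBit i with
    | false =>
      refine ⟨rfl, ?_⟩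
      rw [h1] at hi1
      simpa using hi1
    | true =>
      exfalso
      have h2 : b'.testBit i = false := by
        rw [h1] at hi1
        simpa using hi1
      have := Nat.lt_of_testBit i h2 h1 (fun j hj => (hi2' j hj).symm)
      omega
  refine ⟨⟨l - 1 - i, by omega⟩, ?_, ?_, ?_⟩
  · intro j hj
    have hj' : j.val < l - 1 - i := hj
    exact hi2' _ (by omega)
  · show b.testBit (l - 1 - (l - 1 - i)) = false
    rw [show l - 1 - (l - 1 - i) = i by omega]
    exact hbi.1
  · show b'.testBit (l - 1 - (l - 1 - i)) = true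
    rw [show l - 1 - (l - 1 - i) = i by omega]
    exact hbi.2

lemma sel_inj {l b b' : ℕ} (hb : b < 2 ^ l) (hb' : b' < 2 ^ l) (h : sel l b = sel l b') :
    b = b' := by
  rcases lt_trichotomy b b' with h1 | h1 | h1
  · have := sel_lt h1 hb'
    rw [h] at this
    exact absurd this (lexLt_irrefl _)
  · exact h1
  · have := sel_lt h1 hb
    rw [h] at this
    exact absurd this (lexLt_irrefl _)

lemma sel_surj {l : ℕ} (γ : Fin l → Bool) : ∃ b : Fin (2 ^ l), sel l b = γ := by
  have hinj : Function.Injective (fun b : Fin (2 ^ l) => sel l b) := fun b b' h =>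
    Fin.ext (sel_inj b.2 b'.2 h)
  have hbij : Function.Bijective (fun b : Fin (2 ^ l) => sel l b) := by
    rw [Fintype.bijective_iff_injective_and_card]
    refine ⟨hinj, ?_⟩
    rw [Fintype.card_fin, Fintype.card_fun, Fintype.card_fin, Fintype.card_bool]
  exact hbij.2 γ

/-! ### The formula -/

variable {l n M₀ M : ℕ}

/-- The formula whose part `b` is the formula `Z b`. -/
def block (ψ : Fin M → Fin (2 ^ l) × Fin M₀) (Z : Fin (2 ^ l) → (Fin M₀ × Fin n × Bool → Bool)) :
    Fin M × Fin (l + n) × Bool → Bool := fun c =>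
  Fin.addCases (fun i => c.2.2 == !(sel l (ψ c.1).1 i)) (fun v => Z (ψ c.1).1 ((ψ c.1).2, v, c.2.2))
    c.2.1

lemma block_left (ψ : Fin M → Fin (2 ^ l) × Fin M₀)
    (Z : Fin (2 ^ l) → (Fin M₀ × Fin n × Bool → Bool)) (c : Fin M) (i : Fin l) (β : Bool) :
    block ψ Z (c, Fin.castAdd n i, β) = (β == !(sel l (ψ c).1 i)) := by
  unfold block
  simp only [Fin.addCases_left]

lemma block_right (ψ : Fin M → Fin (2 ^ l) × Fin M₀)
    (Z : Fin (2 ^ l) → (Fin M₀ × Fin n × Bool → Bool)) (c : Fin M) (v : Fin n) (β : Bool) :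
    block ψ Z (c, Fin.natAdd l v, β) = Z (ψ c).1 ((ψ c).2, v, β) := by
  unfold block
  simp only [Fin.addCases_right]

/-- The assignment of the part `b`. -/
def comb (l : ℕ) {n : ℕ} (b : ℕ) (β : Fin n → Bool) : Fin (l + n) → Bool :=
  Fin.addCases (sel l b) β

lemma comb_left (b : ℕ) (β : Fin n → Bool) (i : Fin l) :
    comb l b β (Fin.castAdd n i) = sel l b i := by
  unfold comb; simp only [Fin.addCases_left]

lemma comb_right (b : ℕ) (β : Fin n → Bool) (v : Fin n) :
    comb l b β (Fin.natAdd l v) = β v := by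
  unfold comb; simp only [Fin.addCases_right]

lemma comb_inj {b : ℕ} {β β' : Fin n → Bool} (h : comb l b β = comb l b β') : β = β' := by
  funext v
  rw [← comb_right (l := l) b β v, h, comb_right]

lemma comb_surj (α : Fin (l + n) → Bool) : ∃ (b : Fin (2 ^ l)) (β : Fin n → Bool),
    α = comb l b β := by
  obtain ⟨b, hb⟩ := sel_surj (fun i => α (Fin.castAdd n i))
  refine ⟨b, fun v => α (Fin.natAdd l v), ?_⟩
  funext u
  refine Fin.addCases (fun i => ?_) (fun v => ?_) u
  · rw [comb_left, hb]
  · rw [comb_right]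

lemma comb_lt {b b' : ℕ} (h : b < b') (hb' : b' < 2 ^ l) (β β' : Fin n → Bool) :
    LexLt (comb l b β) (comb l b' β') := by
  obtain ⟨i, h1, h2, h3⟩ := sel_lt h hb'
  refine ⟨Fin.castAdd n i, ?_, ?_, ?_⟩
  · intro j hj
    have hj' : j.val < i.val := hj
    have h4 : j = Fin.castAdd n ⟨j.val, by omega⟩ := rfl
    rw [h4, comb_left, comb_left]
    exact h1 _ hj'
  · rw [comb_left]; exact h2
  · rw [comb_left]; exact h3

lemma block_models {ψ : Fin M → Fin (2 ^ l) × Fin M₀} (hψ : Function.Surjective ψ)
    (Z : Fin (2 ^ l) → (Fin M₀ × Fin n × Bool → Bool)) (b : Fin (2 ^ l)) (β : Fin n → Bool) :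
    Models (block ψ Z) (comb l b β) ↔ Models (Z b) β := by
  constructor
  · intro h c
    obtain ⟨c', hc'⟩ := hψ (b, c)
    obtain ⟨u, hu⟩ := h c'
    revert hu
    refine Fin.addCases (fun i => ?_) (fun v => ?_) u
    · intro hu
      rw [comb_left, block_left, hc'] at hu
      cases h1 : sel l b i <;> rw [h1] at hu <;> cases hu
    · intro hu
      rw [comb_right, block_right, hc'] at hu
      exact ⟨v, hu⟩
  · intro h c
    by_cases hc : (ψ c).1 = b
    · obtain ⟨v, hv⟩ := h (ψ c).2
      refine ⟨Fin.natAdd l v, ?_⟩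
      rw [comb_right, block_right, hc]
      exact hv
    · have hne : sel l b ≠ sel l (ψ c).1 := fun h' =>
        hc (Fin.ext (sel_inj (ψ c).1.2 b.2 h'.symm))
      obtain ⟨i, hi⟩ := Function.ne_iff.1 hne
      refine ⟨Fin.castAdd n i, ?_⟩
      rw [comb_left, block_left]
      revert hi
      cases sel l b i <;> cases sel l (ψ c).1 i <;> simp

lemma block_width {w : ℕ} (ψ : Fin M → Fin (2 ^ l) × Fin M₀)
    (Z : Fin (2 ^ l) → (Fin M₀ × Fin n × Bool → Bool)) (hZ : ∀ b, WidthLe (Z b) w) :
    WidthLe (block ψ Z) (l + w) := by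
  classical
  intro c
  have h1 : (univ.filter (fun q : Fin (l + n) × Bool => block ψ Z (c, q) = true)) ⊆
      (univ.image (fun i : Fin l => (Fin.castAdd n i, !(sel l (ψ c).1 i)))) ∪
      ((univ.filter (fun q : Fin n × Bool => Z (ψ c).1 ((ψ c).2, q) = true)).image
        (fun q => (Fin.natAdd l q.1, q.2))) := by
    rintro ⟨u, β⟩ hq
    rw [Finset.mem_filter] at hq
    rw [Finset.mem_union]
    obtain ⟨_, hq⟩ := hq
    revert hq
    refine Fin.addCases (fun i => ?_) (fun v => ?_) u
    · intro hq
      left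
      rw [block_left] at hq
      rw [Finset.mem_image]
      refine ⟨i, Finset.mem_univ _, ?_⟩
      rw [beq_iff_eq] at hq
      rw [hq]
    · intro hq
      right
      rw [block_right] at hq
      rw [Finset.mem_image]
      exact ⟨(v, β), Finset.mem_filter.2 ⟨Finset.mem_univ _, hq⟩, rfl⟩
  refine (Finset.card_le_card h1).trans ((Finset.card_union_le _ _).trans ?_)
  apply Nat.add_le_add
  · refine Finset.card_image_le.trans ?_
    rw [Finset.card_univ, Fintype.card_fin]
  · exact Finset.card_image_le.trans (hZ (ψ c).1 (ψ c).2)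

/-- Changing one part. -/
lemma block_junta {I : Type} [Fintype I] [DecidableEq I] (ψ : Fin M → Fin (2 ^ l) × Fin M₀)
    (g : (I → Bool) → (Fin M₀ × Fin n × Bool → Bool))
    (hg : ∀ c, Junta 1 (fun X => g X c)) (b : Fin (2 ^ l))
    (Y : Fin (2 ^ l) → (I → Bool)) (c : Fin M × Fin (l + n) × Bool) :
    Junta 1 (fun X => block ψ (fun j => g (Function.update Y b X j)) c) := by
  obtain ⟨c, u, β⟩ := c
  refine Fin.addCases (fun i => ?_) (fun v => ?_) u
  · refine ⟨∅, by simp, fun X X' _ => ?_⟩
    beta_reduce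
    rw [block_left, block_left]
  · by_cases hc : (ψ c).1 = b
    · obtain ⟨A, hA1, hA2⟩ := hg ((ψ c).2, v, β)
      refine ⟨A, hA1, fun X X' h => ?_⟩
      beta_reduce
      rw [block_right, block_right, hc, Function.update_self, Function.update_self]
      exact hA2 X X' h
    · refine ⟨∅, by simp, fun X X' _ => ?_⟩
      beta_reduce
      rw [block_right, block_right, Function.update_of_ne hc, Function.update_of_ne hc]

end Pool.Agent.W980.St
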