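import Mathlib

/-!
The abstract argument: a student that learns one solution after the other.
-/

set_option autoImplicit false

namespace Pool.Agent.W980.St

open Classical in
/-- The answers of the teacher that knows the solutions `as` (the last one first). -/
noncomputable def tau {A Y : Type} (y0 : Y) (enc : ℕ → A → Y) : List A → Y → Y
  | [], y => y
  | a :: v, y => if y = (match v with | [] => y0 | b :: v' => enc v'.length b)
      then enc v.length a else tau y0 enc v y

/-- The best solution. -/
def top {A Y : Type} (y0 : Y) (enc : ℕ → A → Y) : List A → Y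
  | [] => y0
  | a :: v => enc v.length a

/-- The history up to the time when the solutions `as` are known. -/
noncomputable def hist {A Y 𝒳 : Type} (y0 : Y) (enc : ℕ → A → Y) (x : List A → 𝒳)
    (pr : 𝒳 → List (Y × Y) → Y) : List A → List (Y × Y)
  | [] => []
  | a :: v => hist y0 enc x pr v ++ [(pr (x v) (hist y0 enc x pr v),
      tau y0 enc (a :: v) (pr (x v) (hist y0 enc x pr v)))]

section

variable {A Y 𝒳 : Type} (y0 : Y) (enc : ℕ → A → Y) (x : List A → 𝒳) (pr : 𝒳 → List (Y × Y) → Y)

lemma tau_cons (a : A) (v : List A) (y : Y) : tau y0 enc (a :: v) y =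
    open Classical in if y = top y0 enc v then enc v.length a else tau y0 enc v y := by
  cases v <;> rfl

lemma hist_length (v : List A) : (hist y0 enc x pr v).length = v.length := by
  induction v with
  | nil => rfl
  | cons a v ih =>
    show (hist y0 enc x pr v ++ [_]).length = _
    rw [List.length_append, ih]
    rfl

/-- The solution `a` is a good next one. -/
def Cond (as : List A) (a : A) : Prop :=
  ∀ u, u <:+ as → pr (x (a :: as)) (hist y0 enc x pr u) = pr (x as) (hist y0 enc x pr u) ∧
    pr (x as) (hist y0 enc x pr u) ≠ enc as.length a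

/-- All solutions are good next ones. -/
def Ok : List A → Prop
  | [] => True
  | a :: v => Ok v ∧ Cond y0 enc x pr v a

variable {y0 enc x pr}

lemma Ok.suffix {u v : List A} (h : u <:+ v) (hv : Ok y0 enc x pr v) : Ok y0 enc x pr u := by
  induction v with
  | nil =>
    rw [List.suffix_nil] at h
    rw [h]; trivial
  | cons a v ih =>
    rcases List.suffix_cons_iff.1 h with h | h
    · rw [h]; exact hv
    · exact ih h hv.1

lemma pr_stable {u v : List A} (h : u <:+ v) (hv : Ok y0 enc x pr v) :
    pr (x v) (hist y0 enc x pr u) = pr (x u) (hist y0 enc x pr u) := by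
  induction v with
  | nil =>
    rw [List.suffix_nil] at h
    rw [h]
  | cons a v ih =>
    rcases List.suffix_cons_iff.1 h with h | h
    · rw [h]
    · rw [(hv.2 u h).1]
      exact ih h hv.1

lemma pr_ne {u v w : List A} {a : A} (h : u <:+ v) (hw : (a :: v) <:+ w)
    (hok : Ok y0 enc x pr w) : pr (x u) (hist y0 enc x pr u) ≠ enc v.length a := by
  have h1 := hok.suffix hw
  have h2 := (h1.2 u h).2
  rw [pr_stable h h1.1] at h2
  exact h2

/-- The answers of the teacher do not reveal more than the next solution. -/
lemma tau_stable {a : A} {u v : List A} (h : (a :: u) <:+ v) (hv : Ok y0 enc x pr v) :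
    tau y0 enc v (pr (x u) (hist y0 enc x pr u)) =
      tau y0 enc (a :: u) (pr (x u) (hist y0 enc x pr u)) := by
  induction v with
  | nil =>
    rw [List.suffix_nil] at h
    cases h
  | cons b v ih =>
    rcases List.suffix_cons_iff.1 h with h | h
    · rw [← h]
    · rw [tau_cons, if_neg, ih h hv.1]
      cases v with
      | nil => rw [List.suffix_nil] at h; cases h
      | cons b' v =>
        have h2 : u <:+ v := by
          rcases List.suffix_cons_iff.1 h with h | h
          · rw [(List.cons.inj h).2]
          · exact (List.suffix_cons a u).trans h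
        exact pr_ne h2 (List.suffix_cons b (b' :: v)) hv

variable (y0 enc x pr) in
/-- The real history. -/
noncomputable def realHist (as : List A) : ℕ → List (Y × Y)
  | 0 => []
  | i + 1 => realHist as i ++ [(pr (x as) (realHist as i),
      tau y0 enc as (pr (x as) (realHist as i)))]

theorem real_eq {as : List A} (hok : Ok y0 enc x pr as) (i : ℕ) (hi : i ≤ as.length) :
    ∃ u, u <:+ as ∧ u.length = i ∧ realHist y0 enc x pr as i = hist y0 enc x pr u := by
  have key : ∀ i ≤ as.length,
      realHist y0 enc x pr as i = hist y0 enc x pr (as.drop (as.length - i)) := by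
    intro i
    induction i with
    | zero =>
      intro _
      rw [Nat.sub_zero, List.drop_length]
      rfl
    | succ i ih =>
      intro hi
      have ih' := ih (by omega)
      have hlt : as.length - (i + 1) < as.length := by omega
      have h1 : as.drop (as.length - (i + 1)) = as[as.length - (i + 1)] ::
          as.drop (as.length - i) := by
        rw [List.drop_eq_getElem_cons hlt]
        congr 2
        omega
      obtain ⟨u, hu⟩ : ∃ u, u = as.drop (as.length - i) := ⟨_, rfl⟩
      obtain ⟨a, ha⟩ : ∃ a, a = as[as.length - (i + 1)] := ⟨_, rfl⟩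
      rw [← ha, ← hu] at h1
      rw [← hu] at ih'
      have hsuf : (a :: u) <:+ as := by
        rw [← h1]; exact List.drop_suffix _ _
      have hsuf' : u <:+ as := (List.suffix_cons a u).trans hsuf
      rw [h1]
      show realHist y0 enc x pr as i ++ [_] = hist y0 enc x pr u ++ [_]
      rw [ih', pr_stable hsuf' hok, tau_stable hsuf hok]
  refine ⟨as.drop (as.length - i), List.drop_suffix _ _, ?_, key i hi⟩
  rw [List.length_drop]
  omega

/-- The best solution is never presented. -/
theorem real_ne {as : List A} (hok : Ok y0 enc x pr as) (i : ℕ) (hi : i < as.length) :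
    pr (x as) (realHist y0 enc x pr as i) ≠ top y0 enc as := by
  obtain ⟨u, hu, hul, h⟩ := real_eq hok i hi.le
  rw [h, pr_stable hu hok]
  cases as with
  | nil => simp at hi
  | cons a v =>
    rcases List.suffix_cons_iff.1 hu with h' | h'
    · rw [h'] at hul; omega
    · exact pr_ne h' (List.suffix_refl _) hok

/-- The known solutions. -/
def Known (y0 : Y) (enc : ℕ → A → Y) (as : List A) (y : Y) : Prop :=
  y = y0 ∨ ∃ a v, (a :: v) <:+ as ∧ y = enc v.length a

lemma known_cons {a : A} {v : List A} {y : Y} :
    Known y0 enc (a :: v) y ↔ y = enc v.length a ∨ Known y0 enc v y := by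
  constructor
  · rintro (h | ⟨b, w, h1, h2⟩)
    · exact Or.inr (Or.inl h)
    · rcases List.suffix_cons_iff.1 h1 with h | h
      · left
        rw [h2, (List.cons.inj h).1, (List.cons.inj h).2]
      · exact Or.inr (Or.inr ⟨b, w, h, h2⟩)
  · rintro (h | h | ⟨b, w, h1, h2⟩)
    · exact Or.inr ⟨a, v, List.suffix_refl _, h⟩
    · exact Or.inl h
    · exact Or.inr ⟨b, w, h1.trans (List.suffix_cons _ _), h2⟩

variable {lt : Y → Y → Prop} {L : ℕ}

lemma known_lt (hlt : ∀ b b' a a', b < b' → b' < L → lt (enc b a) (enc b' a'))
    (hlt0 : ∀ b a, lt y0 (enc b a)) {a : A} {v : List A} (hv : v.length < L) {y : Y}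
    (hy : Known y0 enc v y) : lt y (enc v.length a) := by
  rcases hy with rfl | ⟨b, w, h1, rfl⟩
  · exact hlt0 _ _
  · have := h1.length_le
    rw [List.length_cons] at this
    exact hlt _ _ _ _ (by omega) hv

/-- The teacher is honest. -/
lemma tau_known (hlt : ∀ b b' a a', b < b' → b' < L → lt (enc b a) (enc b' a'))
    (hlt0 : ∀ b a, lt y0 (enc b a)) {as : List A} (has : as.length ≤ L) {y : Y}
    (hy : Known y0 enc as y) (hne : y ≠ top y0 enc as) :
    Known y0 enc as (tau y0 enc as y) ∧ lt y (tau y0 enc as y) := by
  induction as with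
  | nil =>
    rcases hy with h | ⟨a, v, h, _⟩
    · exact absurd h hne
    · rw [List.suffix_nil] at h; cases h
  | cons a v ih =>
    rw [List.length_cons] at has
    rcases known_cons.1 hy with h | h
    · exact absurd h hne
    · rw [tau_cons]
      split_ifs with h1
      · exact ⟨Or.inr ⟨a, v, List.suffix_refl _, rfl⟩,
          known_lt hlt hlt0 (by omega) h⟩
      · obtain ⟨h2, h3⟩ := ih (by omega) h h1
        exact ⟨known_cons.2 (Or.inr h2), h3⟩

lemma top_known (as : List A) : Known y0 enc as (top y0 enc as) := by
  cases as with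
  | nil => exact Or.inl rfl
  | cons a v => exact Or.inr ⟨a, v, List.suffix_refl _, rfl⟩

lemma top_max (hlt : ∀ b b' a a', b < b' → b' < L → lt (enc b a) (enc b' a'))
    (hlt0 : ∀ b a, lt y0 (enc b a)) (hasy : ∀ y z, lt y z → ¬ lt z y) {as : List A}
    (has : as.length ≤ L) {z : Y} (hz : Known y0 enc as z) : ¬ lt (top y0 enc as) z := by
  cases as with
  | nil =>
    rcases hz with h | ⟨a, v, h, _⟩
    · intro h2
      rw [h] at h2
      exact hasy _ _ h2 h2
    · rw [List.suffix_nil] at h; cases h
  | cons a v =>
    rw [List.length_cons] at has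
    rcases known_cons.1 hz with h | h
    · intro h2
      rw [h] at h2
      exact hasy _ _ h2 h2
    · exact hasy _ _ (known_lt hlt hlt0 (by omega) h)

/-- Choosing the solutions one after the other. -/
theorem exists_ok (L : ℕ) (P0 : ℕ → A → Prop)
    (h : ∀ as : List A, as.length < L → Ok y0 enc x pr as → ∃ a, P0 as.length a ∧
      Cond y0 enc x pr as a) :
    ∃ as : List A, as.length = L ∧ Ok y0 enc x pr as ∧
      ∀ a v, (a :: v) <:+ as → P0 v.length a := by
  have key : ∀ l ≤ L, ∃ as : List A, as.length = l ∧ Ok y0 enc x pr as ∧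
      ∀ a v, (a :: v) <:+ as → P0 v.length a := by
    intro l
    induction l with
    | zero =>
      intro _
      refine ⟨[], rfl, trivial, ?_⟩
      intro a v hv
      rw [List.suffix_nil] at hv; cases hv
    | succ l ih =>
      intro hl
      obtain ⟨as, h1, h2, h3⟩ := ih (by omega)
      obtain ⟨a, h4, h5⟩ := h as (by omega) h2
      refine ⟨a :: as, by rw [List.length_cons, h1], ⟨h2, h5⟩, ?_⟩
      intro b v hv
      rcases List.suffix_cons_iff.1 hv with h' | h'
      · rw [(List.cons.inj h').1, (List.cons.inj h').2]
        exact h4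
      · exact h3 b v h'
  exact key L le_rfl

end

end Pool.Agent.W980.St
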