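import Mathlib
import Pool.Agent.W980.Esy.Prob

/-!
The existence of good tuples of instances.
-/

set_option autoImplicit false

namespace Pool.Agent.W980.St

open Finset H568R2 H592R3 Pool.Agent.W980.Esy

/-- The union bound for events that are rare in one coordinate. -/
theorem prod_union {ι B 𝒳 : Type} [Fintype ι] [Fintype B] [DecidableEq B] [Fintype 𝒳]
    (w : 𝒳 → ℝ) (hw : ∀ Z, 0 ≤ w Z) (hw1 : ∑ Z, w Z = 1)
    (E : ι → (B → 𝒳) → Prop) (c : ι → B) (η : ℝ)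
    (hE : ∀ e X, ∑ Z, w Z * ind (E e (Function.update X (c e) Z)) ≤ η)
    (hη : Fintype.card ι * η < 1) :
    ∃ X : B → 𝒳, (∀ b, w (X b) ≠ 0) ∧ ∀ e, ¬ E e X := by
  by_contra hcon
  push Not at hcon
  have h1 : Ex w (fun X : B → 𝒳 => ∑ e, ind (E e X)) ≤ Fintype.card ι * η := by
    rw [Ex_sum]
    refine (Finset.sum_le_card_nsmul _ _ η fun e _ => ?_).trans (le_of_eq ?_)
    · rw [Ex_resample hw1 _ (c e)]
      refine (Ex_mono hw (fun X => hE e X)).trans (le_of_eq ?_)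
      exact Ex_const hw1 η
    · rw [Finset.card_univ, nsmul_eq_mul]
  have h2 : (1 : ℝ) ≤ Ex w (fun X : B → 𝒳 => ∑ e, ind (E e X)) := by
    rw [← Ex_const (I := B) hw1 1]
    unfold Ex
    refine Finset.sum_le_sum fun X _ => ?_
    by_cases hX : ∀ b, w (X b) ≠ 0
    · obtain ⟨e, he⟩ := hcon X hX
      apply mul_le_mul_of_nonneg_left _ (Finset.prod_nonneg fun b _ => hw _)
      rw [← ind_true he]
      exact Finset.single_le_sum (f := fun e => ind (E e X)) (fun e _ => ind_nonneg _)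
        (Finset.mem_univ e)
    · push Not at hX
      obtain ⟨b, hb⟩ := hX
      rw [Finset.prod_eq_zero (Finset.mem_univ b) hb, zero_mul, zero_mul]
  linarith

section

variable {I : Type} [Fintype I] [DecidableEq I]

/-- Conditioning on an event of probability at least `1 / 3`. -/
theorem cond_weight {p : ℝ} (hp0 : 0 ≤ p) (hp1 : p ≤ 1) (G : (I → Bool) → Prop)
    (hG : 1 / 3 ≤ Ex (vp p) (fun X => ind (G X))) :
    ∃ w : (I → Bool) → ℝ, (∀ Z, 0 ≤ w Z) ∧ ∑ Z, w Z = 1 ∧ (∀ Z, w Z ≠ 0 → G Z) ∧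
      ∀ Z, w Z ≤ 3 * ∏ i, vp p (Z i) := by
  obtain ⟨W, hW⟩ : ∃ W, W = Ex (vp p) (fun X => ind (G X)) := ⟨_, rfl⟩
  rw [← hW] at hG
  have hW0 : 0 < W := by linarith
  have hpr : ∀ Z : I → Bool, 0 ≤ ∏ i, vp p (Z i) := fun Z =>
    Finset.prod_nonneg fun i _ => vp_nonneg hp0 hp1 _
  refine ⟨fun Z => (∏ i, vp p (Z i)) * ind (G Z) / W, fun Z => ?_, ?_, ?_, fun Z => ?_⟩
  · exact div_nonneg (mul_nonneg (hpr Z) (ind_nonneg _)) hW0.le
  · rw [← Finset.sum_div]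
    have : ∑ Z : I → Bool, (∏ i, vp p (Z i)) * ind (G Z) = W := by rw [hW]; rfl
    rw [this, div_self hW0.ne']
  · intro Z hZ
    by_contra hcon
    apply hZ
    beta_reduce
    rw [ind_false hcon, mul_zero, zero_div]
  · have h1 : (∏ i, vp p (Z i)) * ind (G Z) ≤ ∏ i, vp p (Z i) := by
      have := mul_le_mul_of_nonneg_left (ind_le_one (G Z)) (hpr Z)
      linarith
    rw [div_le_iff₀ hW0]
    have h2 := hpr Z
    nlinarith

/-- Markov's inequality. -/
theorem markov_pow {p : ℝ} (hp0 : 0 ≤ p) (hp1 : p ≤ 1) (g : (I → Bool) → ℝ)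
    (hg : ∀ X, 0 ≤ g X) (R τ : ℝ) (hτ : 0 < τ) (κ : ℕ)
    (h : Ex (vp p) (fun X => g X ^ κ) ≤ R ^ κ) :
    Ex (vp p) (fun X => ind (τ < g X)) ≤ (R / τ) ^ κ := by
  have h1 := Ex_markov (ι := Unit) hp0 hp1 (fun _ X => g X) (fun _ X => hg X) R τ hτ κ (fun _ => h)
  rw [Fintype.card_unit, Nat.cast_one, one_mul] at h1
  refine (Ex_mono (vp_nonneg hp0 hp1) fun X => ?_).trans h1
  exact ind_mono (fun h => ⟨(), h⟩)

theorem weight_le {p : ℝ} (w : (I → Bool) → ℝ)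
    (hw3 : ∀ Z, w Z ≤ 3 * ∏ i, vp p (Z i)) (E : (I → Bool) → Prop) :
    ∑ Z, w Z * ind (E Z) ≤ 3 * Ex (vp p) (fun X => ind (E X)) := by
  unfold Ex
  rw [Finset.mul_sum]
  refine Finset.sum_le_sum fun Z _ => ?_
  rw [← mul_assoc]
  exact mul_le_mul_of_nonneg_right (hw3 Z) (ind_nonneg _)

end

variable {m r N : ℕ}

/-- Many assignments can be planted. -/
theorem many_uniq (hN : 1 ≤ N) {p : ℝ} (hp0 : 0 ≤ p) (hp1 : p ≤ 1)
    (P0 : (Fin m → Fin N) → ((Fin m × (Fin r → Fin N)) → Bool) → Prop)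
    (hP : ∀ a, Ex (vp p) (fun X => ind (¬ P0 a X)) ≤ 1 / 2) :
    1 / 3 ≤ Ex (vp p) (fun X => ind ((N : ℝ) ^ m / 4 ≤ cnt (fun a => P0 a X))) := by
  obtain ⟨NN, hNN⟩ : ∃ NN : ℝ, NN = (N : ℝ) ^ m := ⟨_, rfl⟩
  have hNR : (0 : ℝ) < N := by exact_mod_cast hN
  have hNN0 : 0 < NN := by rw [hNN]; positivity
  have hcard : ((Fintype.card (Fin m → Fin N) : ℕ) : ℝ) = NN := by
    rw [hNN, Fintype.card_fun, Fintype.card_fin, Fintype.card_fin]; push_cast; rfl
  rw [← hNN]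
  have h1 : Ex (vp p) (fun X => ∑ a : Fin m → Fin N, ind (¬ P0 a X)) ≤ NN * (1 / 2) := by
    rw [Ex_sum]
    have a4 := Finset.sum_le_card_nsmul (univ : Finset (Fin m → Fin N)) _ _ (fun a _ => hP a)
    rw [Finset.card_univ, nsmul_eq_mul, hcard] at a4
    exact a4
  have h2 : ∀ X, 1 ≤ ind (NN / 4 ≤ cnt (fun a => P0 a X)) +
      (4 / (3 * NN)) * (∑ a : Fin m → Fin N, ind (¬ P0 a X)) := by
    intro X
    have h3 : (∑ a : Fin m → Fin N, ind (¬ P0 a X)) + cnt (fun a => P0 a X) = NN := by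
      unfold Pool.Agent.W980.Esy.cnt
      rw [← Finset.sum_add_distrib, ← hcard]
      have : ∀ a : Fin m → Fin N, ind (¬ P0 a X) + ind (P0 a X) = 1 := by
        intro a
        by_cases h : P0 a X
        · rw [ind_true h, ind_false (not_not.2 h)]; norm_num
        · rw [ind_false h, ind_true h]; norm_num
      simp only [this]
      simp
    have h0 : 0 ≤ ∑ a : Fin m → Fin N, ind (¬ P0 a X) :=
      Finset.sum_nonneg fun a _ => ind_nonneg _
    by_cases h : NN / 4 ≤ cnt (fun a => P0 a X)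
    · rw [ind_true h]
      have : 0 ≤ (4 / (3 * NN)) * (∑ a : Fin m → Fin N, ind (¬ P0 a X)) :=
        mul_nonneg (by positivity) h0
      linarith
    · rw [ind_false h, zero_add]
      push Not at h
      have h4 : 3 * NN / 4 ≤ ∑ a : Fin m → Fin N, ind (¬ P0 a X) := by linarith
      calc (1 : ℝ) = (4 / (3 * NN)) * (3 * NN / 4) := by field_simp
        _ ≤ _ := mul_le_mul_of_nonneg_left h4 (by positivity)
  have h3 := Ex_mono (vp_nonneg hp0 hp1) h2
  rw [Ex_add, Ex_smul, Ex_const (vp_sum p)] at h3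
  have h4 := mul_le_mul_of_nonneg_left h1 (by positivity : 0 ≤ 4 / (3 * NN))
  have h5 : 4 / (3 * NN) * (NN * (1 / 2)) = 2 / 3 := by field_simp; norm_num
  rw [h5] at h4
  linarith

end Pool.Agent.W980.St
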