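import Mathlib
import Pool.Agent.W980.St.Prob
import Pool.Agent.W980.St.Abs
import Pool.Agent.W980.St.Defs
import Pool.Agent.W980.Esy.Mach

/-!
The theorem for fixed parameters.
-/

set_option autoImplicit false

namespace Pool.Agent.W980.St

open Finset H568R2 H592R3
open Pool.Agent.W964.Wd (Machine)
open Pool.Agent.W964.Pram (nch nch_nonneg)
open Pool.Agent.W980.Esy (pl ind ind_nonneg ind_le_one ind_true ind_false ind_mono MomBound nch_eq
  cnt_mono cnt_or cnt_exists cnt_exists_of_lt)

section

variable {m r N L : ℕ}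

/-- The instances after planting the solutions `as` (the last one first). -/
def Zof (s : Fin m → Fin r → Fin m) (X : Fin L → ((Fin m × (Fin r → Fin N)) → Bool))
    (as : List (Fin m → Fin N)) : Fin L → ((Fin m × (Fin r → Fin N)) → Bool) :=
  fun b => (as.reverse[b.val]?).elim (X b) (fun a => pl s a (X b))

lemma Zof_ge (s : Fin m → Fin r → Fin m) (X : Fin L → ((Fin m × (Fin r → Fin N)) → Bool))
    (as : List (Fin m → Fin N)) (b : Fin L) (hb : as.length ≤ b.val) : Zof s X as b = X b := by
  unfold Zof
  rw [List.getElem?_eq_none (by rw [List.length_reverse]; exact hb)]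
  rfl

lemma Zof_cons (s : Fin m → Fin r → Fin m) (X : Fin L → ((Fin m × (Fin r → Fin N)) → Bool))
    (a : Fin m → Fin N) (v : List (Fin m → Fin N)) (hv : v.length < L) :
    Zof s X (a :: v) = Function.update (Zof s X v) ⟨v.length, hv⟩
      (pl s a (X ⟨v.length, hv⟩)) := by
  funext b
  by_cases hb : b = ⟨v.length, hv⟩
  · subst hb
    rw [Function.update_self]
    unfold Zof
    rw [List.reverse_cons, List.getElem?_append_right (by simp)]
    simp
  · rw [Function.update_of_ne hb]
    unfold Zof
    rw [List.reverse_cons]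
    rcases lt_or_ge b.val v.length with h | h
    · rw [List.getElem?_append_left (by rw [List.length_reverse]; exact h)]
    · have h' : v.length < b.val := lt_of_le_of_ne h (fun h' => hb (Fin.ext h'.symm))
      rw [List.getElem?_append_right (by rw [List.length_reverse]; exact h),
        List.getElem?_eq_none (by rw [List.length_reverse, List.length_singleton]; omega),
        List.getElem?_eq_none (by rw [List.length_reverse]; exact h)]

lemma Zof_update (s : Fin m → Fin r → Fin m) (X : Fin L → ((Fin m × (Fin r → Fin N)) → Bool))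
    (v : List (Fin m → Fin N)) (b : Fin L) (hb : v.length ≤ b.val)
    (Z : (Fin m × (Fin r → Fin N)) → Bool) :
    Zof s (Function.update X b Z) v = Function.update (Zof s X v) b Z := by
  funext j
  by_cases hj : j = b
  · subst hj
    rw [Function.update_self, Zof_ge _ _ _ _ hb, Function.update_self]
  · rw [Function.update_of_ne hj]
    unfold Zof
    rw [Function.update_of_ne hj]

/-- Lists of length less than `L`. -/
abbrev Ls (L : ℕ) (α : Type) : Type := (i : Fin L) × (Fin i.val → α)

/-- The list. -/
def toLs {L : ℕ} {α : Type} (z : Ls L α) : List α := List.ofFn z.2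

lemma toLs_surj {L : ℕ} {α : Type} (z : List α) (h : z.length < L) :
    ∃ z' : Ls L α, toLs z' = z ∧ z'.1.val = z.length := by
  refine ⟨⟨⟨z.length, h⟩, fun i => z.get i⟩, ?_, rfl⟩
  unfold toLs
  exact List.ofFn_get z

lemma toLs_length {L : ℕ} {α : Type} (z : Ls L α) : (toLs z).length = z.1.val := by
  unfold toLs
  rw [List.length_ofFn]

lemma card_Ls (L : ℕ) (α : Type) [Fintype α] (h : 2 ≤ Fintype.card α) :
    Fintype.card (Ls L α) ≤ Fintype.card α ^ L := by
  have h1 : Fintype.card (Ls L α) = ∑ i : Fin L, Fintype.card α ^ i.val := by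
    rw [Fintype.card_sigma]
    refine Finset.sum_congr rfl fun i _ => ?_
    rw [Fintype.card_fun, Fintype.card_fin]
  rw [h1, Fin.sum_univ_eq_sum_range (fun i => Fintype.card α ^ i) L]
  exact (Nat.geomSum_lt h (fun k hk => Finset.mem_range.1 hk)).le

lemma cnt_le_one {A Y : Type} [Fintype A] (f : A → Y) (hf : Function.Injective f) (y : Y) :
    Pool.Agent.W980.Esy.cnt (fun a => y = f a) ≤ 1 := by
  classical
  unfold Pool.Agent.W980.Esy.cnt
  by_cases h : ∃ a, y = f a
  · obtain ⟨a, ha⟩ := h
    rw [Finset.sum_eq_single a]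
    · exact ind_le_one _
    · intro b _ hb
      apply ind_false
      intro h'
      exact hb (hf (h'.symm.trans ha))
    · intro h; exact absurd (Finset.mem_univ a) h
  · rw [Finset.sum_eq_zero]
    · exact zero_le_one
    · intro b _
      exact ind_false (fun h' => h ⟨b, h'⟩)

theorem st_fixed (hN : 1 ≤ N) (s : Fin m → Fin r → Fin m) {p Rr τ : ℝ} (hp0 : 0 ≤ p)
    (hp1 : p ≤ 1) (hτ : 0 < τ) {κ T P₀ K P : ℕ} (hM : MomBound s N p Rr κ T P₀ K)
    {J Y : Type} [Fintype Y] (hY : 2 ≤ Fintype.card Y) (hA2 : 2 ≤ N ^ m)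
    (Φ : (Fin L → ((Fin m × (Fin r → Fin N)) → Bool)) → (J → Bool))
    (hΦ : ∀ b W j, Junta 1 (fun X => Φ (Function.update W b X) j))
    (y0 : Y) (enc : ℕ → (Fin m → Fin N) → Y) (henc : ∀ b, Function.Injective (enc b))
    (D : Student J Y P) (hP : P ≤ P₀) (hD : D.Lists K)
    (P0 : (Fin m → Fin N) → ((Fin m × (Fin r → Fin N)) → Bool) → Prop)
    (hP0 : ∀ a, Ex (vp p) (fun X => ind (¬ P0 a X)) ≤ 1 / 2)
    (hsmall : ((((N ^ m) ^ L * (Fintype.card Y * Fintype.card Y) ^ L : ℕ) : ℝ)) *
      (3 * (Rr / τ) ^ κ) < 1) (hRτ : 0 ≤ Rr / τ)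
    (hfin : L * (τ + 1) < (N : ℝ) ^ m / 4) :
    ∃ X : Fin L → ((Fin m × (Fin r → Fin N)) → Bool), ∃ as : List (Fin m → Fin N),
      as.length = L ∧ Ok y0 enc (fun v => Φ (Zof s X v)) (D.present T) as ∧
      ∀ a v, (a :: v) <:+ as → ∀ h : v.length < L, P0 a (X ⟨v.length, h⟩) := by
  classical
  obtain ⟨w, hw0, hw1, hw2, hw3⟩ := cond_weight hp0 hp1 _ (many_uniq hN hp0 hp1 P0 hP0)
  obtain ⟨F, hF⟩ : ∃ F : Ls L (Fin m → Fin N) → Ls L (Y × Y) →
      (Fin L → ((Fin m × (Fin r → Fin N)) → Bool)) → ((Fin m × (Fin r → Fin N)) → Bool) →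
      (Σ h : List (Y × Y), (D.mach h).V),
      F = fun v h X Z => ⟨toLs h, (D.mach (toLs h)).result T
        (Φ (Function.update (Zof s X (toLs v)) v.1 Z))⟩ := ⟨_, rfl⟩
  have hFb : ∀ v h X, Ex (vp p) (fun Z => nch s (F v h X) Z ^ κ) ≤ Rr ^ κ := by
    intro v h X
    rw [hF]
    refine Pool.Agent.W980.Esy.mom_comp hp0 hp1 hM
      (fun Z => Φ (Function.update (Zof s X (toLs v)) v.1 Z)) (hΦ _ _)
      (D.mach (toLs h)) hP (hD _) _
      (fun u => (⟨toLs h, u⟩ : Σ h : List (Y × Y), (D.mach h).V)) (fun Z => rfl)
  obtain ⟨X, hX1, hX2⟩ := prod_union (ι := Ls L (Fin m → Fin N) × Ls L (Y × Y)) w hw0 hw1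
    (fun e X => τ < nch s (F e.1 e.2 X) (X e.1.1)) (fun e => e.1.1) (3 * (Rr / τ) ^ κ)
    (by
      rintro ⟨v, h⟩ X
      dsimp only
      have h1 : ∀ Z, ind (τ < nch s (F v h (Function.update X v.1 Z))
          (Function.update X v.1 Z v.1)) = ind (τ < nch s (F v h X) Z) := by
        intro Z
        rw [Function.update_self]
        have h2 : F v h (Function.update X v.1 Z) = F v h X := by
          rw [hF]
          funext Z'
          dsimp only
          rw [Zof_update s X (toLs v) v.1 (by rw [toLs_length]) Z, Function.update_idem]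
        rw [h2]
      simp only [h1]
      refine (weight_le w hw3 _).trans ?_
      apply mul_le_mul_of_nonneg_left _ (by norm_num)
      exact markov_pow hp0 hp1 _ (fun Z => nch_nonneg s _ Z) Rr τ hτ κ (hFb v h X))
    (by
      refine lt_of_le_of_lt ?_ hsmall
      apply mul_le_mul_of_nonneg_right
      · rw [Fintype.card_prod]
        have h1 := card_Ls L (Fin m → Fin N) (by
          rw [Fintype.card_fun, Fintype.card_fin, Fintype.card_fin]; exact hA2)
        have h2 := card_Ls L (Y × Y) (by
          rw [Fintype.card_prod]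
          calc 2 ≤ 2 * 2 := by norm_num
            _ ≤ _ := Nat.mul_le_mul hY hY)
        rw [Fintype.card_fun, Fintype.card_fin, Fintype.card_fin] at h1
        rw [Fintype.card_prod] at h2
        exact_mod_cast Nat.mul_le_mul h1 h2
      · positivity)
  obtain ⟨as, h1, h2, h3⟩ := exists_ok (y0 := y0) (enc := enc) (x := fun v => Φ (Zof s X v))
    (pr := D.present T) L (fun b a => ∀ h : b < L, P0 a (X ⟨b, h⟩)) (by
      intro as has hok
      obtain ⟨b, hb⟩ : ∃ b : Fin L, b = ⟨as.length, has⟩ := ⟨_, rfl⟩
      have hbv : b.val = as.length := by rw [hb]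
      have hgood : (N : ℝ) ^ m / 4 ≤ Pool.Agent.W980.Esy.cnt (fun a => P0 a (X b)) := hw2 _ (hX1 b)
      obtain ⟨v, hv1, hv2⟩ := toLs_surj as has
      have hvb : v.1 = b := Fin.ext (by rw [hv2, hbv])
      have hbad : ∀ i ∈ Finset.range (as.length + 1), Pool.Agent.W980.Esy.cnt (fun a : Fin m → Fin N =>
          D.present T (Φ (Zof s X (a :: as)))
            (hist y0 enc (fun v => Φ (Zof s X v)) (D.present T) (as.drop i)) ≠
          D.present T (Φ (Zof s X as))
            (hist y0 enc (fun v => Φ (Zof s X v)) (D.present T) (as.drop i)) ∨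
          D.present T (Φ (Zof s X as))
            (hist y0 enc (fun v => Φ (Zof s X v)) (D.present T) (as.drop i)) =
            enc as.length a) ≤ τ + 1 := by
        intro i _
        refine (cnt_or _ _).trans (add_le_add ?_ (cnt_le_one _ (henc _) _))
        obtain ⟨H, hH⟩ : ∃ H, H = hist y0 enc (fun v => Φ (Zof s X v)) (D.present T)
          (as.drop i) := ⟨_, rfl⟩
        rw [← hH]
        have hHl : H.length < L := by
          rw [hH, hist_length, List.length_drop]; omega
        obtain ⟨h, hh1, hh2⟩ := toLs_surj H hHl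
        have hle : nch s (F v h X) (X b) ≤ τ := by
          have := hX2 (v, h)
          dsimp only at this
          rw [hvb] at this
          exact not_lt.1 this
        refine le_trans ?_ hle
        rw [nch_eq]
        apply cnt_mono
        intro a ha heq
        apply ha
        rw [hF] at heq
        dsimp only at heq
        rw [hv1, hvb, hh1] at heq
        have e1 : Function.update (Zof s X as) b (X b) = Zof s X as := by
          rw [← Zof_ge s X as b (le_of_eq hbv.symm), Function.update_eq_self]
        have e2 : Function.update (Zof s X as) b (pl s a (X b)) = Zof s X (a :: as) := by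
          rw [Zof_cons s X a as has, hb]
        rw [e1, e2] at heq
        have heq2 := eq_of_heq (Sigma.mk.inj heq).2
        unfold Student.present
        rw [heq2]
      obtain ⟨a, ha1, ha2⟩ := cnt_exists_of_lt (A := Fin m → Fin N)
        (p := fun a => P0 a (X b))
        (q := fun a => ∃ i ∈ Finset.range (as.length + 1),
          (D.present T (Φ (Zof s X (a :: as)))
            (hist y0 enc (fun v => Φ (Zof s X v)) (D.present T) (as.drop i)) ≠
          D.present T (Φ (Zof s X as))
            (hist y0 enc (fun v => Φ (Zof s X v)) (D.present T) (as.drop i)) ∨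
          D.present T (Φ (Zof s X as))
            (hist y0 enc (fun v => Φ (Zof s X v)) (D.present T) (as.drop i)) =
            enc as.length a)) (by
          refine lt_of_lt_of_le ?_ hgood
          refine lt_of_le_of_lt ?_ hfin
          refine (cnt_exists _ _).trans ((Finset.sum_le_card_nsmul _ _ _ hbad).trans ?_)
          rw [Finset.card_range, nsmul_eq_mul]
          apply mul_le_mul_of_nonneg_right _ (by linarith)
          exact_mod_cast has)
      push Not at ha2
      refine ⟨a, fun h => ?_, ?_⟩
      · rw [hb] at ha1; exact ha1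
      · intro u hu
        have hu2 := List.suffix_iff_eq_drop.1 hu
        have := ha2 (as.length - u.length) (Finset.mem_range.2 (by omega))
        rw [← hu2] at this
        exact this)
  exact ⟨X, as, h1, h2, h3⟩

end

end Pool.Agent.W980.St
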