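import Mathlib
import Pool.Agent.W980.St.Fixed
import Pool.Agent.W980.St.Block
import Pool.Agent.H592R3.Core

/-!
The coding of the solutions.
-/

set_option autoImplicit false

namespace Pool.Agent.W980.St

open Finset H568R2 H592R3 SmallDepth
open Pool.Agent.W980.Esy (pl)

section Enc

variable {m n B ℓ M : ℕ}

/-- The assignment that codes `a`. -/
noncomputable def encA (e : (Fin m × Fin ℓ) ↪ Fin n) (dec : (Fin ℓ → Bool) ≃ Fin (2 ^ ℓ))
    (a : Fin m → Fin (2 ^ ℓ)) : Fin n → Bool :=
  Function.extend e (fun p => dec.symm (a p.1) p.2) (fun _ => false)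

lemma encA_apply (e : (Fin m × Fin ℓ) ↪ Fin n) (dec : (Fin ℓ → Bool) ≃ Fin (2 ^ ℓ))
    (a : Fin m → Fin (2 ^ ℓ)) (v : Fin m) : (fun i => encA e dec a (e (v, i))) = dec.symm (a v) := by
  funext i
  unfold encA
  rw [e.injective.extend_apply]

lemma encA_inj (e : (Fin m × Fin ℓ) ↪ Fin n) (dec : (Fin ℓ → Bool) ≃ Fin (2 ^ ℓ)) :
    Function.Injective (encA e dec) := by
  intro a a' h
  funext v
  apply dec.symm.injective
  rw [← encA_apply e dec a v, h, encA_apply]

lemma cnfOf_pl_models {s : Fin m → Fin B → Fin m} {e : (Fin m × Fin ℓ) ↪ Fin n}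
    {dec : (Fin ℓ → Bool) ≃ Fin (2 ^ ℓ)} {v0 : Fin n}
    {π : Fin M → (Fin m × (Fin B → Fin (2 ^ ℓ))) ⊕ Fin n} (hπ : Function.Surjective π)
    {a : Fin m → Fin (2 ^ ℓ)} {X : (Fin m × (Fin B → Fin (2 ^ ℓ))) → Bool} (hU : Uniq s a X)
    (β : Fin n → Bool) :
    Models (cnfOf s e dec v0 π (pl s a X)) β ↔ β = encA e dec a := by
  have hat := uniq_atMostOne hU univ
  have hmod : Models (cnfOf s e dec v0 π (pl s a X)) (encA e dec a) := by
    rw [cnfOf_models hπ]
    constructor
    · intro v hv
      unfold encA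
      rw [Function.extend_apply']
      rintro ⟨p, hp⟩
      exact hv ⟨p, hp⟩
    · intro j
      have h1 : (fun k => dec (fun i => encA e dec a (e (s j k, i)))) = fun k => a (s j k) := by
        funext k
        rw [encA_apply, Equiv.apply_symm_apply]
      rw [h1]
      show plant (vr s a) univ X (vr s a j) = true
      rw [plant_true]
      exact Or.inl ⟨j, Finset.mem_univ _, rfl⟩
  constructor
  · intro h
    exact cnfOf_unique hπ _ hat β _ h hmod
  · intro h
    rw [h]; exact hmod

end Enc

section Suffix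

variable {m r N L : ℕ}

lemma Zof_suffix (s : Fin m → Fin r → Fin m)
    (X : Fin L → ((Fin m × (Fin r → Fin N)) → Bool)) {as : List (Fin m → Fin N)}
    (has : as.length ≤ L) {a : Fin m → Fin N} {v : List (Fin m → Fin N)} (h : (a :: v) <:+ as)
    (hv : v.length < L) : Zof s X as ⟨v.length, hv⟩ = pl s a (X ⟨v.length, hv⟩) := by
  induction as with
  | nil => rw [List.suffix_nil] at h; cases h
  | cons c as ih =>
    rw [List.length_cons] at has
    rw [Zof_cons s X c as (by omega)]
    rcases List.suffix_cons_iff.1 h with h | h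
    · obtain ⟨rfl, rfl⟩ := List.cons.inj h
      rw [Function.update_self]
    · have h1 := h.length_le
      rw [List.length_cons] at h1
      rw [Function.update_of_ne]
      · exact ih (by omega) h
      · intro h'
        have := congrArg Fin.val h'
        dsimp only at this
        omega

lemma exists_suffix {A : Type} (as : List A) (b : ℕ) (hb : b < as.length) :
    ∃ a v, (a :: v) <:+ as ∧ v.length = b := by
  have hlt : as.length - (b + 1) < as.length := by omega
  refine ⟨as[as.length - (b + 1)], as.drop (as.length - (b + 1) + 1), ?_, ?_⟩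
  · rw [← List.drop_eq_getElem_cons hlt]
    exact List.drop_suffix _ _
  · rw [List.length_drop]; omega

end Suffix

section Final

variable {m n B ℓ M₀ M l : ℕ} {J : Type} {P : ℕ}

/-- The coding of the solutions of the part `b`. -/
noncomputable def encS (l : ℕ) (e : (Fin m × Fin ℓ) ↪ Fin n) (dec : (Fin ℓ → Bool) ≃ Fin (2 ^ ℓ))
    (b : ℕ) (a : Fin m → Fin (2 ^ ℓ)) : Option (Fin (l + n) → Bool) :=
  some (comb l b (encA e dec a))

lemma encS_inj (e : (Fin m × Fin ℓ) ↪ Fin n) (dec : (Fin ℓ → Bool) ≃ Fin (2 ^ ℓ)) (b : ℕ) :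
    Function.Injective (encS l e dec b) := fun _ _ h =>
  encA_inj e dec (comb_inj (Option.some_injective _ h))

theorem run_fails (s : Fin m → Fin B → Fin m) (e : (Fin m × Fin ℓ) ↪ Fin n)
    (dec : (Fin ℓ → Bool) ≃ Fin (2 ^ ℓ)) (v0 : Fin n)
    {π : Fin M₀ → (Fin m × (Fin B → Fin (2 ^ ℓ))) ⊕ Fin n} (hπ : Function.Surjective π)
    {ψ : Fin M → Fin (2 ^ l) × Fin M₀} (hψ : Function.Surjective ψ)
    (D : Student (Fin M × Fin (l + n) × Bool) (Option (Fin (l + n) → Bool)) P) (T : ℕ)
    (X : Fin (2 ^ l) → ((Fin m × (Fin B → Fin (2 ^ ℓ))) → Bool))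
    (as : List (Fin m → Fin (2 ^ ℓ))) (has : as.length = 2 ^ l)
    (hok : Ok none (encS l e dec)
      (fun v => block ψ (fun j => cnfOf s e dec v0 π (Zof s X v j))) (D.present T) as)
    (hU : ∀ a v, (a :: v) <:+ as → ∀ h : v.length < 2 ^ l, Uniq s a (X ⟨v.length, h⟩)) :
    ∃ teacher, Honest (block ψ (fun j => cnfOf s e dec v0 π (Zof s X as j))) teacher ∧
      ∀ i < 2 ^ l, ¬ Optimal (block ψ (fun j => cnfOf s e dec v0 π (Zof s X as j)))
        (D.solution T teacher (block ψ (fun j => cnfOf s e dec v0 π (Zof s X as j))) i) := by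
  obtain ⟨x, hx⟩ : ∃ x, x = block ψ (fun j => cnfOf s e dec v0 π (Zof s X as j)) := ⟨_, rfl⟩
  have hfeas : ∀ y, Feasible x y ↔ Known none (encS l e dec) as y := by
    intro y
    cases y with
    | none => exact ⟨fun _ => Or.inl rfl, fun _ α h => by cases h⟩
    | some α =>
      obtain ⟨b, β, rfl⟩ := comb_surj α
      obtain ⟨a, v, h1, h2⟩ := exists_suffix as b.val (by rw [has]; exact b.2)
      have hvl : v.length < 2 ^ l := by rw [h2]; exact b.2
      have hb : (⟨v.length, hvl⟩ : Fin (2 ^ l)) = b := Fin.ext h2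
      have hmod : Models x (comb l b β) ↔ β = encA e dec a := by
        rw [hx, block_models hψ]
        have h3 := Zof_suffix s X (le_of_eq has) h1 hvl
        rw [hb] at h3
        rw [h3]
        have h4 := hU a v h1 hvl
        rw [hb] at h4
        exact cnfOf_pl_models hπ h4 β
      constructor
      · intro h
        have h3 := hmod.1 (h _ rfl)
        refine Or.inr ⟨a, v, h1, ?_⟩
        unfold encS
        rw [h2, h3]
      · rintro (h | ⟨a', v', h3, h4⟩)
        · cases h
        · have hv'l : v'.length < 2 ^ l := by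
            have := h3.length_le
            rw [List.length_cons, has] at this
            omega
          have h5 := Option.some_injective _ h4
          intro α hα
          rw [← Option.some_injective _ hα, h5]
          have h6 : (⟨v'.length, hv'l⟩ : Fin (2 ^ l)).val = v'.length := rfl
          rw [hx, ← h6, block_models hψ, Zof_suffix s X (le_of_eq has) h3 hv'l]
          exact (cnfOf_pl_models hπ (hU a' v' h3 hv'l) _).2 rfl
  have hlt : ∀ b b' (a a' : Fin m → Fin (2 ^ ℓ)), b < b' → b' < 2 ^ l →
      Better (encS l e dec b a) (encS l e dec b' a') := fun b b' a a' h h' =>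
    comb_lt h h' _ _
  have hlt0 : ∀ b a, Better none (encS l e dec b a) := fun b a => trivial
  have htop : Optimal x (top none (encS l e dec) as) := by
    refine ⟨(hfeas _).2 (top_known _), fun z hz => ?_⟩
    exact top_max hlt hlt0 better_asymm (le_of_eq has) ((hfeas z).1 hz)
  have hnot : ∀ y, y ≠ top none (encS l e dec) as → ¬ Optimal x y := by
    rintro y hy ⟨h1, h2⟩
    obtain ⟨h3, h4⟩ := tau_known hlt hlt0 (le_of_eq has) ((hfeas y).1 h1) hy
    exact h2 _ ((hfeas _).2 h3) h4
  rw [← hx]
  refine ⟨tau none (encS l e dec) as, ?_, ?_⟩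
  · intro y hy
    by_cases hf : Feasible x y
    · right
      have hne : y ≠ top none (encS l e dec) as := by
        intro h
        rw [h] at hy
        exact hy htop
      obtain ⟨h3, h4⟩ := tau_known hlt hlt0 (le_of_eq has) ((hfeas y).1 hf) hne
      exact ⟨(hfeas _).2 h3, h4⟩
    · exact Or.inl hf
  · intro i hi
    apply hnot
    have hreal : ∀ i, D.history T (tau none (encS l e dec) as) x i =
        realHist none (encS l e dec)
          (fun v => block ψ (fun j => cnfOf s e dec v0 π (Zof s X v j))) (D.present T) as i := by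
      intro i
      induction i with
      | zero => rfl
      | succ i ih =>
        show D.history T (tau none (encS l e dec) as) x i ++ [_] = realHist _ _ _ _ as i ++ [_]
        rw [ih, hx]
    have h1 := real_ne hok i (by rw [has]; exact hi)
    beta_reduce at h1
    rw [← hreal, ← hx] at h1
    exact h1

end Final

end Pool.Agent.W980.St
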