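import Mathlib
import Pool.Agent.W980.St.Enc
import Pool.Agent.W980.St.Arith

/-!
The theorem for CNF formulas, in the parameters of the construction.
-/

set_option autoImplicit false

namespace Pool.Agent.W980.St

open Finset H568R2 H592R3 SmallDepth
open Pool.Agent.W964.Pram (ar dom dens Vr mom_hard)
open Pool.Agent.W964.Wd (Machine)
open Pool.Agent.W980.Esy (pl ind MomBound toPram toPram_res U_large)

theorem st_cnf0 (ε : ℝ) (hε : 0 < ε) (hε1 : ε ≤ 1) (K : ℕ) :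
    ∃ C : ℝ, 0 < C ∧
    ∀ n T l w M : ℕ, 2 ≤ n → 1 ≤ T →
    C * (T * Real.log (n + ((512 * (n + 2 ^ l) ^ 4 : ℕ) : ℝ))) ≤ w → w ≤ n →
    2 ^ l * (n * 2 ^ w) ≤ M →
    ∀ (P : ℕ) (D : Student (Fin M × Fin (l + n) × Bool) (Option (Fin (l + n) → Bool)) P),
      (P : ℝ) ≤ 2 ^ ((1 - ε / 2) * n) → D.Lists (2 ^ (K * n)) →
      ∃ x teacher, WidthLe x (l + w) ∧ Honest x teacher ∧
        ∀ i < 2 ^ l, ¬ Optimal x (D.solution T teacher x i) := by
  classical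
  obtain ⟨Q, hQ6, _, C, hC, hpar⟩ := mom_hard (ε / 2) (by linarith) (by linarith) K
  refine ⟨C, hC, ?_⟩
  intro n T l w M hn hT hw hwn hM P D hP hD
  obtain ⟨G, hG⟩ : ∃ G, G = 512 * (n + 2 ^ l) ^ 4 := ⟨_, rfl⟩
  rw [← hG] at hw
  obtain ⟨b, m', κ, hb, hm', hκ, hB2, hgk, hg8, hBw, hQn, hexp, hwb, s, hs, huniq, hmom⟩ :=
    hpar n T G w hn hT hw hwn
  obtain ⟨t, ht⟩ : ∃ t, t = 3 * T * b := ⟨_, rfl⟩
  have ht32 : 32 ≤ t := by rw [ht]; omega
  have hQm : 1 ≤ Q * m' := Nat.one_le_iff_ne_zero.2 (by positivity)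
  have hdomt : dom T b = 2 ^ (2 * t) := by
    show 2 ^ (2 * (3 * T) * b) = 2 ^ (2 * t)
    rw [ht]
    congr 1
    ring
  -- constants
  obtain ⟨NN, hNN⟩ : ∃ NN : ℝ, NN = (((dom T b : ℕ) : ℝ)) ^ (Q * m') := ⟨_, rfl⟩
  have hdom : 1 ≤ dom T b := Nat.one_le_two_pow
  have hNN0 : 0 < NN := by
    rw [hNN]
    have : (0 : ℝ) < ((dom T b : ℕ) : ℝ) := by exact_mod_cast hdom
    positivity
  have hdens : dens T b = 1 / ((2 : ℝ) ^ t) ^ 3 / 2 := by
    unfold Pool.Agent.W964.Pram.dens; rw [ht]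
  have hp0 : 0 < dens T b := by rw [hdens]; positivity
  have hp1 : dens T b ≤ 1 := by
    rw [hdens]
    have h1 : (1 : ℝ) ≤ ((2 : ℝ) ^ t) ^ 3 := one_le_pow₀ (one_le_pow₀ (by norm_num))
    have h2 : 1 / ((2 : ℝ) ^ t) ^ 3 ≤ 1 := by
      rw [div_le_one (by positivity)]; exact h1
    linarith
  obtain ⟨P₀, hP₀⟩ : ∃ P₀ : ℕ, P₀ = ⌊(2 : ℝ) ^ ((1 - ε / 2) * n)⌋₊ := ⟨_, rfl⟩
  have hP1 : P ≤ P₀ := by
    rw [hP₀]
    exact Nat.le_floor hP
  have hM' : MomBound s (dom T b) (dens T b) (NN * (4 / 2 ^ t)) κ T P₀ (2 ^ (K * n)) := by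
    intro J' σ' hσ' P'' M hP'' hL
    have h1 := hmom J' σ' hσ' P'' (toPram M) (by
      have h2 : ((P'' : ℕ) : ℝ) ≤ (P₀ : ℝ) := by exact_mod_cast hP''
      refine h2.trans ?_
      rw [hP₀]
      exact Nat.floor_le (by positivity)) hL
    rw [← ht, ← hNN] at h1
    refine le_trans (le_of_eq ?_) h1
    congr 1
    funext X
    congr 2
    funext X
    exact (toPram_res M (σ' X) T).symm
  -- the coding
  have hℓ2 : 2 ≤ 2 * (3 * T) * b := by
    have h1 : 1 ≤ T * b := Nat.one_le_iff_ne_zero.2 (by positivity)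
    have : 2 * (3 * T) * b = 6 * (T * b) := by ring
    omega
  have hcard1 : Q * m' * (2 * (3 * T) * b) ≤ n := by
    refine le_trans ?_ hQn
    exact Nat.mul_le_mul_left _ (by omega)
  obtain ⟨e⟩ : Nonempty ((Fin (Q * m') × Fin (2 * (3 * T) * b)) ↪ Fin n) := by
    apply Function.Embedding.nonempty_of_card_le
    rw [Fintype.card_prod, Fintype.card_fin, Fintype.card_fin, Fintype.card_fin]
    exact hcard1
  obtain ⟨dec⟩ : Nonempty ((Fin (2 * (3 * T) * b) → Bool) ≃ Fin (2 ^ (2 * (3 * T) * b))) :=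
    ⟨Fintype.equivFinOfCardEq (by simp)⟩
  have hn0 : 0 < n := by omega
  have hcard2 : Q * m' * (2 ^ (2 * (3 * T) * b)) ^ (ar Q) + n ≤ n * 2 ^ w := by
    have h1 : (2 ^ (2 * (3 * T) * b)) ^ (ar Q) ≤ 2 ^ w := by
      rw [← pow_mul]
      apply Nat.pow_le_pow_right (by norm_num)
      rw [mul_comm]; omega
    have h2 : 2 * (Q * m') ≤ n := by
      refine le_trans ?_ hcard1
      rw [mul_comm]
      exact Nat.mul_le_mul_left _ hℓ2
    have h3 : 2 ≤ 2 ^ w := by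
      calc 2 = 2 ^ 1 := (pow_one 2).symm
        _ ≤ 2 ^ w := Nat.pow_le_pow_right (by norm_num) (by omega)
    have h4 : 2 * (Q * m' * (2 ^ (2 * (3 * T) * b)) ^ (ar Q)) ≤ n * 2 ^ w := by
      calc 2 * (Q * m' * (2 ^ (2 * (3 * T) * b)) ^ (ar Q)) =
          (2 * (Q * m')) * (2 ^ (2 * (3 * T) * b)) ^ (ar Q) := by ring
        _ ≤ n * 2 ^ w := Nat.mul_le_mul h2 h1
    have h5 : 2 * n ≤ n * 2 ^ w := by
      rw [mul_comm]; exact Nat.mul_le_mul_left _ h3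
    omega
  obtain ⟨π, hπ⟩ : ∃ π : Fin (n * 2 ^ w) → (Fin (Q * m') × (Fin (ar Q) →
      Fin (2 ^ (2 * (3 * T) * b)))) ⊕ Fin n, Function.Surjective π := by
    have : Nonempty ((Fin (Q * m') × (Fin (ar Q) →
      Fin (2 ^ (2 * (3 * T) * b)))) ⊕ Fin n) := ⟨Sum.inr ⟨0, hn0⟩⟩
    obtain ⟨g⟩ : Nonempty (((Fin (Q * m') × (Fin (ar Q) →
      Fin (2 ^ (2 * (3 * T) * b)))) ⊕ Fin n) ↪ Fin (n * 2 ^ w)) := by
      apply Function.Embedding.nonempty_of_card_le
      rw [Fintype.card_sum, Fintype.card_prod, Fintype.card_fun, Fintype.card_fin,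
        Fintype.card_fin, Fintype.card_fin, Fintype.card_fin, Fintype.card_fin]
      exact hcard2
    exact ⟨Function.invFun g, Function.invFun_surjective g.injective⟩
  have hM₀ : 0 < n * 2 ^ w := by positivity
  obtain ⟨ψ, hψ⟩ : ∃ ψ : Fin M → Fin (2 ^ l) × Fin (n * 2 ^ w), Function.Surjective ψ := by
    have : Nonempty (Fin (2 ^ l) × Fin (n * 2 ^ w)) :=
      ⟨(⟨0, Nat.two_pow_pos l⟩, ⟨0, hM₀⟩)⟩
    obtain ⟨g⟩ : Nonempty ((Fin (2 ^ l) × Fin (n * 2 ^ w)) ↪ Fin M) := by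
      apply Function.Embedding.nonempty_of_card_le
      rw [Fintype.card_prod, Fintype.card_fin, Fintype.card_fin, Fintype.card_fin]
      exact hM
    exact ⟨Function.invFun g, Function.invFun_surjective g.injective⟩
  have hw2 : 2 ≤ w := by
    have h1 : 1 * 2 ≤ ar Q * (2 * (3 * T) * b) :=
      Nat.mul_le_mul (by unfold ar; omega) hℓ2
    omega
  have hwid : ∀ X, WidthLe (cnfOf s e dec ⟨0, hn0⟩ π X) w := fun X =>
    cnfOf_width (by omega) (by omega) X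
  -- the instance
  have hL1 : 1 ≤ 2 ^ l := Nat.one_le_two_pow
  have hLa : (2 ^ l) ^ 4 ≤ (n + 2 ^ l) ^ 4 := Nat.pow_le_pow_left (by omega) 4
  rw [← ht] at hg8 hgk
  have hU := U_large (k := 2 ^ l - 1) hg8 (by
    rw [Nat.sub_add_cancel hL1, hG]
    omega)
  rw [Nat.sub_add_cancel hL1] at hU
  have hQn' : Q * m' * (2 * t + 1) ≤ n := by
    refine le_trans (le_of_eq ?_) hQn
    rw [ht]; ring
  have hcY : Fintype.card (Option (Fin (l + n) → Bool)) = 2 ^ (l + n) + 1 := by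
    rw [Fintype.card_option, Fintype.card_fun, Fintype.card_fin, Fintype.card_bool]
  have hcY2 : 2 ≤ Fintype.card (Option (Fin (l + n) → Bool)) := by
    rw [hcY]
    have : 1 ≤ 2 ^ (l + n) := Nat.one_le_two_pow
    omega
  have hcY3 : Fintype.card (Option (Fin (l + n) → Bool)) ≤ 2 ^ (l + n + 1) := by
    rw [hcY, pow_succ]
    have : 1 ≤ 2 ^ (l + n) := Nat.one_le_two_pow
    omega
  obtain ⟨X, as, has, hok, hU0⟩ := st_fixed (L := 2 ^ l) hdom s (p := dens T b)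
    (Rr := NN * (4 / 2 ^ t)) (τ := NN / ((2 : ℝ) ^ (t / 8)) ^ 2) hp0.le hp1 (by positivity) hM'
    hcY2 (by
      rw [hdomt, ← pow_mul]
      calc 2 = 2 ^ 1 := (pow_one 2).symm
        _ ≤ _ := Nat.pow_le_pow_right (by norm_num)
          (Nat.one_le_iff_ne_zero.2 (by positivity)))
    (fun W => block ψ (fun j => cnfOf s e dec ⟨0, hn0⟩ π (W j)))
    (fun b' W c => block_junta ψ (fun X => cnfOf s e dec ⟨0, hn0⟩ π X)
      (cnfOf_junta s e dec ⟨0, hn0⟩ π) b' W c) none (encS l e dec) (encS_inj e dec) D hP1 hD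
    (fun a X => Uniq s a X) (fun a => by
      refine le_trans (le_of_eq ?_) (huniq a)
      congr 1
      funext X
      by_cases hu : Uniq s a X <;> simp [ind, hu]) (by
      rw [hdomt]
      exact small2 hNN0 ht32 hgk hQn' hG hcY3) (by positivity) (by
      rw [hNN, hdomt]
      have := fin2 hQm hL1 hU
      exact_mod_cast this)
  obtain ⟨teacher, ht1, ht2⟩ := run_fails s e dec ⟨0, hn0⟩ hπ hψ D T X as has hok
    (fun a v h hv => hU0 a v h hv)
  exact ⟨_, teacher, block_width ψ _ (fun j => hwid _), ht1, ht2⟩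

end Pool.Agent.W980.St
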