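import Mathlib
import Pool.Agent.W980.St.Hard

/-!
The theorem for CNF formulas.
-/

set_option autoImplicit false

namespace Pool.Agent.W980.St

open SmallDepth

theorem st_cnf (ε : ℝ) (hε : 0 < ε) (K : ℕ) :
    ∃ C : ℝ, 0 < C ∧
    ∀ n T k w M : ℕ, 2 ≤ n → 1 ≤ T → C * (T * Real.log (n + k)) ≤ w → w ≤ n → n * 2 ^ w ≤ M →
    ∀ (P : ℕ) (D : Student (Fin M × Fin n × Bool) (Option (Fin n → Bool)) P),
      (P : ℝ) ≤ 2 ^ ((1 - ε) * n) → D.Lists (2 ^ (K * n)) →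
      ∃ x teacher, WidthLe x w ∧ Honest x teacher ∧
        ∀ i ≤ k, ¬ Optimal x (D.solution T teacher x i) := by
  obtain ⟨ε', hε'⟩ : ∃ ε' : ℝ, ε' = min ε 1 := ⟨_, rfl⟩
  have hε'0 : 0 < ε' := by rw [hε']; exact lt_min hε (by norm_num)
  have hε'1 : ε' ≤ 1 := by rw [hε']; exact min_le_right _ _
  have hε'2 : ε' ≤ ε := by rw [hε']; exact min_le_left _ _
  obtain ⟨C', hC', H⟩ := st_cnf0 ε' hε'0 hε'1 (2 * K)
  obtain ⟨C, hC⟩ : ∃ C : ℝ, C = 18 * C' + 12 + 12 / ε' := ⟨_, rfl⟩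
  have h12 : 0 < 12 / ε' := by positivity
  refine ⟨C, by rw [hC]; positivity, ?_⟩
  intro n T k w M hn hT hw hwn hM
  obtain ⟨l, hl⟩ : ∃ l, l = Nat.log 2 (k + 1) + 1 := ⟨_, rfl⟩
  have hl1 : k + 1 < 2 ^ l := by rw [hl]; exact Nat.lt_pow_succ_log_self (by norm_num) _
  have hl2 : 2 ^ (l - 1) ≤ k + 1 := by
    rw [hl, Nat.add_sub_cancel]
    exact Nat.pow_log_le_self 2 (by omega)
  have hl0 : 1 ≤ l := by omega
  have hl3 : 2 ^ l ≤ 2 * (k + 1) := by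
    calc 2 ^ l = 2 ^ (l - 1) * 2 := by rw [← pow_succ, Nat.sub_add_cancel hl0]
      _ ≤ (k + 1) * 2 := Nat.mul_le_mul_right _ hl2
      _ = _ := by ring
  obtain ⟨a, ha⟩ : ∃ a, a = n + k := ⟨_, rfl⟩
  have ha2 : 2 ≤ a := by omega
  have haR : (n : ℝ) + k = a := by rw [ha]; push_cast; ring
  have haR2 : (2 : ℝ) ≤ a := by exact_mod_cast ha2
  obtain ⟨Λ, hΛ⟩ : ∃ Λ, Λ = Real.log a := ⟨_, rfl⟩
  rw [haR, ← hΛ] at hw
  have hlog2 : (1 : ℝ) / 2 ≤ Real.log 2 := by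
    have := Real.log_two_gt_d9
    linarith
  have hΛ1 : 1 / 2 ≤ Λ := by
    rw [hΛ]
    exact hlog2.trans (Real.log_le_log (by norm_num) haR2)
  have hTR : (1 : ℝ) ≤ T := by exact_mod_cast hT
  have hTΛ : Λ ≤ T * Λ := by nlinarith
  have hlΛ : (l : ℝ) ≤ 4 * Λ := by
    have h1 : ((2 ^ (l - 1) : ℕ) : ℝ) ≤ a := by
      exact_mod_cast hl2.trans (by omega : k + 1 ≤ a)
    have h2 : Real.log ((2 ^ (l - 1) : ℕ) : ℝ) ≤ Λ := by
      rw [hΛ]
      apply Real.log_le_log _ h1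
      exact_mod_cast Nat.two_pow_pos _
    push_cast at h2
    rw [Real.log_pow] at h2
    have h3 : ((l - 1 : ℕ) : ℝ) * (1 / 2) ≤ ((l - 1 : ℕ) : ℝ) * Real.log 2 :=
      mul_le_mul_of_nonneg_left hlog2 (Nat.cast_nonneg _)
    rw [Nat.cast_sub hl0] at h2 h3
    push_cast at h2 h3
    linarith
  have hwΛ : 12 * Λ + 12 / ε' * Λ ≤ w := by
    have h1 : (12 + 12 / ε') * Λ ≤ C * (T * Λ) := by
      have h2 : 12 + 12 / ε' ≤ C := by rw [hC]; linarith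
      have h3 : (12 + 12 / ε') * Λ ≤ C * Λ := mul_le_mul_of_nonneg_right h2 (by linarith)
      have h4 : C * Λ ≤ C * (T * Λ) := mul_le_mul_of_nonneg_left hTΛ (by rw [hC]; positivity)
      linarith
    linarith
  have h12Λ : 0 < 12 / ε' * Λ := mul_pos h12 (by linarith)
  have hlw : 3 * l ≤ w := by
    have : ((3 * l : ℕ) : ℝ) ≤ w := by push_cast; linarith
    exact_mod_cast this
  obtain ⟨n₀, rfl⟩ : ∃ n₀, n = l + n₀ := ⟨n - l, by omega⟩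
  obtain ⟨w₀, rfl⟩ : ∃ w₀, w = l + w₀ := ⟨w - l, by omega⟩
  have hn₀w : w₀ ≤ n₀ := by omega
  have hw₀l : 2 * l ≤ w₀ := by omega
  have hn2 : 2 ≤ n₀ := by omega
  intro P D hP hD
  have h1 : C' * (T * Real.log (n₀ + ((512 * (n₀ + 2 ^ l) ^ 4 : ℕ) : ℝ))) ≤ w₀ := by
    have e1 : n₀ + 512 * (n₀ + 2 ^ l) ^ 4 ≤ a ^ 18 := by
      have h2 : n₀ + 2 ^ l ≤ 2 * a := by omega
      have h3 : 1 ≤ a ^ 4 := Nat.one_le_pow _ _ (by omega)
      calc n₀ + 512 * (n₀ + 2 ^ l) ^ 4 ≤ a ^ 4 + 512 * (2 * a) ^ 4 := by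
            apply Nat.add_le_add
            · calc n₀ ≤ a := by omega
                _ ≤ a ^ 4 := Nat.le_self_pow (by norm_num) a
            · exact Nat.mul_le_mul_left _ (Nat.pow_le_pow_left h2 4)
        _ = 8193 * a ^ 4 := by ring
        _ ≤ 2 ^ 14 * a ^ 4 := Nat.mul_le_mul_right _ (by norm_num)
        _ ≤ a ^ 14 * a ^ 4 := Nat.mul_le_mul_right _ (Nat.pow_le_pow_left ha2 14)
        _ = a ^ 18 := by ring
    have e2 : Real.log ((n₀ : ℝ) + ((512 * (n₀ + 2 ^ l) ^ 4 : ℕ) : ℝ)) ≤ 18 * Λ := by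
      have h2 : (n₀ : ℝ) + ((512 * (n₀ + 2 ^ l) ^ 4 : ℕ) : ℝ) ≤ (a : ℝ) ^ 18 := by
        exact_mod_cast e1
      calc _ ≤ Real.log ((a : ℝ) ^ 18) := by
            apply Real.log_le_log _ h2
            have : (2 : ℝ) ≤ n₀ := by exact_mod_cast hn2
            positivity
        _ = _ := by rw [Real.log_pow, hΛ]; norm_num
    have e3 : C' * (T * Real.log (n₀ + ((512 * (n₀ + 2 ^ l) ^ 4 : ℕ) : ℝ))) ≤
        C' * (T * (18 * Λ)) := by
      apply mul_le_mul_of_nonneg_left _ hC'.le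
      exact mul_le_mul_of_nonneg_left e2 (by linarith)
    have e4 : C' * (T * (18 * Λ)) + l ≤ C * (T * Λ) := by
      have h2 : (18 * C' + 12) * (T * Λ) ≤ C * (T * Λ) := by
        apply mul_le_mul_of_nonneg_right _ (by linarith)
        rw [hC]; linarith
      nlinarith
    push_cast at hw
    push_cast at e3 ⊢
    linarith
  have h2 : (P : ℝ) ≤ 2 ^ ((1 - ε' / 2) * n₀) := by
    refine hP.trans ?_
    apply Real.rpow_le_rpow_of_exponent_le (by norm_num)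
    push_cast
    have h3 : 12 / ε' * Λ ≤ (l : ℝ) + n₀ := by
      have : ((l + w₀ : ℕ) : ℝ) ≤ ((l + n₀ : ℕ) : ℝ) := by exact_mod_cast (by omega)
      push_cast at this hwΛ
      linarith
    have h4 : 12 * Λ ≤ ε' * ((l : ℝ) + n₀) := by
      have h5 := mul_le_mul_of_nonneg_left h3 hε'0.le
      have h6 : ε' * (12 / ε' * Λ) = 12 * Λ := by field_simp
      linarith
    have h5 : (l : ℝ) ≤ ε' / 2 * n₀ := by
      have h6 : ε' * l ≤ 1 * l := mul_le_mul_of_nonneg_right hε'1 (Nat.cast_nonneg _)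
      linarith
    have h6 : (0 : ℝ) ≤ (l : ℝ) := Nat.cast_nonneg _
    have h7 : (0 : ℝ) ≤ (n₀ : ℝ) := Nat.cast_nonneg _
    have h8 : (1 - ε) * ((l : ℝ) + n₀) ≤ (1 - ε') * ((l : ℝ) + n₀) :=
      mul_le_mul_of_nonneg_right (by linarith) (by linarith)
    nlinarith
  have h3 : D.Lists (2 ^ (2 * K * n₀)) := by
    intro h q
    refine (hD h q).trans ?_
    apply Nat.pow_le_pow_right (by norm_num)
    calc K * (l + n₀) ≤ K * (2 * n₀) := Nat.mul_le_mul_left _ (by omega)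
      _ = 2 * K * n₀ := by ring
  have h4 : 2 ^ l * (n₀ * 2 ^ w₀) ≤ M := by
    refine le_trans ?_ hM
    calc 2 ^ l * (n₀ * 2 ^ w₀) = n₀ * 2 ^ (l + w₀) := by rw [pow_add]; ring
      _ ≤ (l + n₀) * 2 ^ (l + w₀) := Nat.mul_le_mul_right _ (by omega)
  obtain ⟨x, teacher, e1, e2, e3⟩ := H n₀ T l w₀ M hn2 hT h1 hn₀w h4 P D h2 h3
  exact ⟨x, teacher, e1, e2, fun i hi => e3 i (by omega)⟩

end Pool.Agent.W980.St
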