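import Mathlib
import Pool.Agent.W980.St.Cnf
import Pool.Agent.W964.Pram.Ip.Asym

/-!
The asymptotic statement.
-/

set_option autoImplicit false

namespace Pool.Agent.W980.St

open SmallDepth Filter

theorem st_asym (δ : ℝ) (hδ : 0 < δ) (hδ2 : δ < 2) (K c : ℕ) (T : ℕ → ℕ)
    (hT : ∀ n, 1 ≤ T n)
    (hTo : (fun n : ℕ => (T n : ℝ) * Real.log n) =o[atTop] (fun n : ℕ => (n : ℝ))) :
    ∃ w : ℕ → ℕ, (∃ C : ℝ, ∀ n, 2 ≤ n → (w n : ℝ) ≤ C * (T n * Real.log n)) ∧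
      ∀ e : ℕ, ∀ᶠ n : ℕ in atTop, ∀ (P : ℕ)
        (D : Student (Fin (n * 2 ^ w n) × Fin n × Bool) (Option (Fin n → Bool)) P),
        (P : ℝ) ≤ (2 - δ) ^ n * (e * (((n * 2 ^ w n : ℕ) : ℝ)) ^ e) →
        D.Lists (2 ^ (K * n)) →
        ∃ x teacher, WidthLe x (w n) ∧ Honest x teacher ∧
          ∀ i ≤ n ^ c, ¬ Optimal x (D.solution (T n) teacher x i) := by
  obtain ⟨ε, hε, has⟩ := Pool.Agent.W964.Pram.asym δ hδ hδ2
  obtain ⟨C, hC, H⟩ := st_cnf ε hε K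
  obtain ⟨w, hw1, hw2, hw3⟩ := has C hC c T hT hTo
  refine ⟨w, hw1, fun e => ?_⟩
  filter_upwards [hw3 e] with n hn P D hP hD
  obtain ⟨hn2, hwn, _, _, hPn⟩ := hn
  exact H n (T n) (n ^ c) (w n) (n * 2 ^ w n) hn2 (hT n) (hw2 n hn2) (by omega) le_rfl
    P D (hP.trans hPn) hD

end Pool.Agent.W980.St
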