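import Mathlib
import Pool.Agent.W980.St.Block

/-!
The lexicographically largest model is found in two steps by `2 ^ n` processors for every clause.
-/

set_option autoImplicit false

namespace Pool.Agent.W980.St

open Finset SmallDepth Pool.Agent.W964.Wd

/-- The assignments in decreasing order. -/
def asg (n : ℕ) (r : Fin (2 ^ n)) : Fin n → Bool := sel n (2 ^ n - 1 - r.val)

lemma asg_lt {n : ℕ} {r r' : Fin (2 ^ n)} (h : r < r') : LexLt (asg n r') (asg n r) := by
  have h' : r.val < r'.val := h
  have h1 := r'.2
  exact sel_lt (by omega) (by omega)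

lemma asg_surj {n : ℕ} (α : Fin n → Bool) : ∃ r, asg n r = α := by
  obtain ⟨b, hb⟩ := sel_surj α
  refine ⟨⟨2 ^ n - 1 - b.val, by have := b.2; omega⟩, ?_⟩
  unfold asg
  rw [← hb]
  congr 1
  have := b.2
  dsimp only
  omega

/-- The states: before the first step, after the first step, after the second step. -/
inductive Sta (n M : ℕ) : Type
  | start (r : Fin (2 ^ n)) (c : Fin M)
  | mid (r : Fin (2 ^ n)) (good : Bool)
  | last (r : Fin (2 ^ n)) (good : Bool)

/-- The contents of the cells. -/
inductive Ct (n : ℕ) : Type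
  | bit (b : Bool)
  | blank
  | bad
  | num (r : Fin (2 ^ n))

/-- Is it a true input bit? -/
def Ct.one {n : ℕ} : Ct n → Bool
  | .bit b => b
  | _ => false

/-- Is it the mark? -/
def Ct.isBad {n : ℕ} : Ct n → Bool
  | .bad => true
  | _ => false

/-- The machine that tries all assignments. -/
@[reducible] def brute (n M : ℕ) : Machine Bool (Fin M × Fin n × Bool) (2 ^ n * M) where
  Q := Sta n M
  A := Option (Fin (2 ^ n))
  V := Ct n
  word := Ct.bit
  blank := Ct.blank
  start := fun p => .start (finProdFinEquiv.symm p).1 (finProdFinEquiv.symm p).2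
  query
    | .start r c => (List.finRange n).map (fun v => Sum.inl (c, v, asg n r v))
    | .mid r _ => [Sum.inr (some r)]
    | .last _ _ => []
  test
    | .start _ _ => Ct.one
    | _ => fun _ => true
  next
    | .start r _ => fun o => .mid r o.isSome
    | .mid r _ => fun o => .last r ((o.map (fun c => !c.2.isBad)).getD false)
    | .last r g => fun _ => .last r g
  write
    | .start _ _ => none
    | .mid r g => if g = true then none else some (Sum.inr (some r), Ct.bad)
    | .last r g => if g = true then some (Sum.inr none, Ct.num r) else none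
  out := Sum.inr none
  accept := fun _ => true

lemma wr_eq {W J : Type} {P : ℕ} (M : Machine W J P) {c : J ⊕ M.A} {q : M.Q} {v : M.V}
    (h : M.write q = some (c, v)) : M.wr c q = some v := by
  unfold Machine.wr
  rw [h]
  simp

lemma wr_ne {W J : Type} {P : ℕ} (M : Machine W J P) {c c' : J ⊕ M.A} {q : M.Q} {v : M.V}
    (h : M.write q = some (c', v)) (hne : c' ≠ c) : M.wr c q = none := by
  unfold Machine.wr
  rw [h]
  simp [hne]

lemma wr_none {W J : Type} {P : ℕ} (M : Machine W J P) {c : J ⊕ M.A} {q : M.Q}
    (h : M.write q = none) : M.wr c q = none := by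
  unfold Machine.wr
  rw [h]
  rfl

variable {n M : ℕ}

lemma brute_lists : (brute n M).Lists (n + 1) := by
  rintro (⟨r, c⟩ | ⟨r, g⟩ | ⟨r, g⟩)
  · show ((List.finRange n).map (fun v => (Sum.inl (c, v, asg n r v) :
      (Fin M × Fin n × Bool) ⊕ Option (Fin (2 ^ n))))).length ≤ n + 1
    simp
  · show 1 ≤ n + 1
    omega
  · show 0 ≤ n + 1
    omega

/-- The clause `c` has a literal that is true under the assignment number `r`. -/
def Ok1 (x : Fin M × Fin n × Bool → Bool) (r : Fin (2 ^ n)) (c : Fin M) : Prop :=
  ∃ v, x (c, v, asg n r v) = true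

lemma findSome_if {α β : Type} (l : List α) (p : α → Bool) (f : α → β) :
    (l.findSome? (fun a => if p a = true then some (f a) else none)).isSome = l.any p := by
  induction l with
  | nil => rfl
  | cons a l ih =>
    rw [List.findSome?_cons, List.any_cons]
    cases h : p a
    · simpa using ih
    · rfl

open Classical in
lemma brute_mid (x : Fin M × Fin n × Bool → Bool) (p : Fin (2 ^ n * M)) :
    ((brute n M).run x 1).1 p = .mid (finProdFinEquiv.symm p).1
      (decide (Ok1 x (finProdFinEquiv.symm p).1 (finProdFinEquiv.symm p).2)) := by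
  obtain ⟨r, c, hrc⟩ : ∃ r c, finProdFinEquiv.symm p = (r, c) := ⟨_, _, rfl⟩
  have h1 : ((brute n M).run x 1).1 p = .mid (finProdFinEquiv.symm p).1
      (((List.finRange n).map (fun v => (Sum.inl ((finProdFinEquiv.symm p).2, v,
        asg n (finProdFinEquiv.symm p).1 v) :
        (Fin M × Fin n × Bool) ⊕ Option (Fin (2 ^ n))))).findSome?
        (fun c => if (Sum.elim (fun j => Ct.bit (x j)) (fun _ => Ct.blank) c : Ct n).one = true
          then some (c, (Sum.elim (fun j => Ct.bit (x j)) (fun _ => Ct.blank) c : Ct n))
          else none)).isSome := rfl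
  rw [h1, hrc, findSome_if]
  congr 1
  rw [Bool.eq_iff_iff, List.any_eq_true, decide_eq_true_iff]
  constructor
  · rintro ⟨q, hq, h⟩
    obtain ⟨v, _, rfl⟩ := List.mem_map.1 hq
    exact ⟨v, h⟩
  · rintro ⟨v, hv⟩
    exact ⟨_, List.mem_map.2 ⟨v, List.mem_finRange v, rfl⟩, hv⟩

lemma brute_cell (x : Fin M × Fin n × Bool → Bool) (r : Fin (2 ^ n)) :
    (((brute n M).run x 1).2 (Sum.inr (some r))).isBad = true ↔ ∃ c, ¬ Ok1 x r c := by
  classical
  have h1 : ((brute n M).run x 1).2 (Sum.inr (some r)) =
      ((List.finRange (2 ^ n * M)).findSome? (fun p => (brute n M).wr (Sum.inr (some r))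
        (((brute n M).run x 1).1 p))).getD Ct.blank := rfl
  have hwr : ∀ p, (brute n M).wr (Sum.inr (some r)) (((brute n M).run x 1).1 p) =
      if ((finProdFinEquiv.symm p).1 = r ∧ ¬ Ok1 x r (finProdFinEquiv.symm p).2) then
        some Ct.bad else none := by
    intro p
    rw [brute_mid]
    obtain ⟨r', c, hrc⟩ : ∃ r c, finProdFinEquiv.symm p = (r, c) := ⟨_, _, rfl⟩
    rw [hrc]
    dsimp only
    by_cases h2 : Ok1 x r' c
    · rw [decide_eq_true h2, if_neg]
      · exact wr_none _ rfl
      · rintro ⟨rfl, h3⟩
        exact h3 h2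
    · rw [decide_eq_false h2]
      by_cases h3 : r' = r
      · subst h3
        rw [if_pos ⟨rfl, h2⟩]
        exact wr_eq _ rfl
      · rw [if_neg (fun h4 => h3 h4.1)]
        exact wr_ne (c' := Sum.inr (some r')) (v := Ct.bad) _ rfl
          (fun h4 => h3 (Option.some_injective _ (Sum.inr_injective h4)))
  rw [h1]
  simp only [hwr]
  constructor
  · intro h
    cases h2 : (List.finRange (2 ^ n * M)).findSome? (fun p =>
      if ((finProdFinEquiv.symm p).1 = r ∧ ¬ Ok1 x r (finProdFinEquiv.symm p).2) then
        some (Ct.bad (n := n)) else none) with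
    | none => rw [h2] at h; cases h
    | some b =>
      obtain ⟨p, _, h3⟩ := List.exists_of_findSome?_eq_some h2
      split_ifs at h3 with h4
      exact ⟨_, h4.2⟩
  · rintro ⟨c, hc⟩
    cases h2 : (List.finRange (2 ^ n * M)).findSome? (fun p =>
      if ((finProdFinEquiv.symm p).1 = r ∧ ¬ Ok1 x r (finProdFinEquiv.symm p).2) then
        some (Ct.bad (n := n)) else none) with
    | none =>
      rw [List.findSome?_eq_none_iff] at h2
      have h3 := h2 (finProdFinEquiv (r, c)) (List.mem_finRange _)
      rw [Equiv.symm_apply_apply, if_pos ⟨rfl, hc⟩] at h3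
      cases h3
    | some b =>
      obtain ⟨p, _, h3⟩ := List.exists_of_findSome?_eq_some h2
      split_ifs at h3 with h4
      rw [← Option.some.inj h3]
      rfl

open Classical in
lemma brute_last (x : Fin M × Fin n × Bool → Bool) (p : Fin (2 ^ n * M)) :
    ((brute n M).run x 2).1 p = .last (finProdFinEquiv.symm p).1
      (decide (Models x (asg n (finProdFinEquiv.symm p).1))) := by
  have h1 : ((brute n M).run x 2).1 p = (brute n M).next (((brute n M).run x 1).1 p)
      ((brute n M).find (((brute n M).run x 1).1 p) ((brute n M).run x 1).2) := rfl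
  rw [h1, brute_mid]
  obtain ⟨r, c, hrc⟩ : ∃ r c, finProdFinEquiv.symm p = (r, c) := ⟨_, _, rfl⟩
  rw [hrc]
  show Sta.last r (!(((brute n M).run x 1).2 (Sum.inr (some r))).isBad) = _
  congr 1
  have h2 := brute_cell x r
  rw [Bool.eq_iff_iff, decide_eq_true_iff, Bool.not_eq_true', ← Bool.not_eq_true, h2]
  push Not
  exact Iff.rfl

theorem brute_result (hM : 1 ≤ M) (x : Fin M × Fin n × Bool → Bool) :
    (∃ r, (brute n M).result 2 x = Ct.num r ∧ Models x (asg n r) ∧
      ∀ r' < r, ¬ Models x (asg n r')) ∨
    ((brute n M).result 2 x = Ct.blank ∧ ∀ r, ¬ Models x (asg n r)) := by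
  classical
  have h0 : ((brute n M).run x 1).2 (Sum.inr none) = Ct.blank := by
    have h1 : ((brute n M).run x 1).2 (Sum.inr none) =
        ((List.finRange (2 ^ n * M)).findSome? (fun p => (brute n M).wr (Sum.inr none)
          (((brute n M).run x 1).1 p))).getD Ct.blank := rfl
    have hwr : ∀ p, (brute n M).wr (Sum.inr none) (((brute n M).run x 1).1 p) = none := by
      intro p
      rw [brute_mid]
      obtain ⟨r', c, hrc⟩ : ∃ r c, finProdFinEquiv.symm p = (r, c) := ⟨_, _, rfl⟩
      rw [hrc]
      dsimp only
      cases decide (Ok1 x r' c)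
      · exact wr_ne (c' := Sum.inr (some r')) (v := Ct.bad) _ rfl (fun h => by cases h)
      · exact wr_none _ rfl
    rw [h1]
    simp only [hwr]
    rw [show (List.finRange (2 ^ n * M)).findSome? (fun _ => (none : Option (Ct n))) = none by
      rw [List.findSome?_eq_none_iff]; intro a _; rfl]
    rfl
  have h1 : (brute n M).result 2 x =
      ((List.finRange (2 ^ n * M)).findSome? (fun p => (brute n M).wr (Sum.inr none)
        (((brute n M).run x 2).1 p))).getD (((brute n M).run x 1).2 (Sum.inr none)) := rfl
  have hwr : ∀ p, (brute n M).wr (Sum.inr none) (((brute n M).run x 2).1 p) =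
      if Models x (asg n (finProdFinEquiv.symm p).1) then
        some (Ct.num (finProdFinEquiv.symm p).1) else none := by
    intro p
    rw [brute_last]
    obtain ⟨r', c, hrc⟩ : ∃ r c, finProdFinEquiv.symm p = (r, c) := ⟨_, _, rfl⟩
    rw [hrc]
    dsimp only
    by_cases h2 : Models x (asg n r')
    · rw [decide_eq_true h2, if_pos h2]
      exact wr_eq _ rfl
    · rw [decide_eq_false h2, if_neg h2]
      exact wr_none _ rfl
  rw [h1, h0]
  simp only [hwr]
  cases h2 : (List.finRange (2 ^ n * M)).findSome? (fun p =>
      if Models x (asg n (finProdFinEquiv.symm p).1) then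
        some (Ct.num (finProdFinEquiv.symm p).1) else none) with
  | none =>
    right
    refine ⟨rfl, fun r hr => ?_⟩
    rw [List.findSome?_eq_none_iff] at h2
    have h3 := h2 (finProdFinEquiv (r, ⟨0, hM⟩)) (List.mem_finRange _)
    rw [Equiv.symm_apply_apply, if_pos hr] at h3
    cases h3
  | some v =>
    left
    obtain ⟨l₁, p, l₂, h3, h4, h5⟩ := List.findSome?_eq_some_iff.1 h2
    split_ifs at h4 with h6
    refine ⟨(finProdFinEquiv.symm p).1, (Option.some.inj h4).symm, h6, ?_⟩
    intro r' hr' hmod
    -- the processor of the better assignment comes earlier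
    have hlt : finProdFinEquiv (r', (⟨0, hM⟩ : Fin M)) < p := by
      obtain ⟨⟨r, c⟩, hrc⟩ : ∃ q, q = finProdFinEquiv.symm p := ⟨_, rfl⟩
      rw [← hrc] at hr'
      have hp : p = finProdFinEquiv (r, c) := by rw [hrc, Equiv.apply_symm_apply]
      rw [hp, Fin.lt_def]
      have hr'' : r'.val < r.val := hr'
      show 0 + M * r'.val < c.val + M * r.val
      have h7 : M * (r'.val + 1) ≤ M * r.val := Nat.mul_le_mul_left _ hr''
      have h8 : M * (r'.val + 1) = M * r'.val + M := by ring
      omega
    have hsort : (List.finRange (2 ^ n * M)).Pairwise (· < ·) := List.pairwise_lt_finRange _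
    have hmem : finProdFinEquiv (r', (⟨0, hM⟩ : Fin M)) ∈ l₁ := by
      have h7 : finProdFinEquiv (r', (⟨0, hM⟩ : Fin M)) ∈ l₁ ++ p :: l₂ := by
        rw [← h3]; exact List.mem_finRange _
      rcases List.mem_append.1 h7 with h8 | h8
      · exact h8
      · exfalso
        rw [h3] at hsort
        have h9 := (List.pairwise_append.1 hsort).2.1
        rcases List.mem_cons.1 h8 with h10 | h10
        · rw [h10] at hlt; exact lt_irrefl _ hlt
        · exact absurd (List.rel_of_pairwise_cons h9 h10) (not_lt.2 hlt.le)
    have h7 := h5 _ hmem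
    rw [Equiv.symm_apply_apply, if_pos hmod] at h7
    cases h7

/-- The student that tries all assignments. -/
def bruteStudent (n M : ℕ) :
    Student (Fin M × Fin n × Bool) (Option (Fin n → Bool)) (2 ^ n * M) where
  mach := fun _ => brute n M
  pres := fun _ v => match v with
    | .num r => some (asg n r)
    | _ => none

/-- Two steps and no question are enough for `2 ^ n` processors for every clause. -/
theorem upper (n M : ℕ) (hM : 1 ≤ M) :
    ∃ D : Student (Fin M × Fin n × Bool) (Option (Fin n → Bool)) (2 ^ n * M), D.Lists (n + 1) ∧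
      ∀ x teacher, Optimal x (D.solution 2 teacher x 0) := by
  refine ⟨bruteStudent n M, fun _ => brute_lists, fun x teacher => ?_⟩
  have h1 : (bruteStudent n M).solution 2 teacher x 0 =
      (bruteStudent n M).pres [] ((brute n M).result 2 x) := rfl
  rw [h1]
  rcases brute_result hM x with ⟨r, h2, h3, h4⟩ | ⟨h2, h3⟩
  · rw [h2]
    show Optimal x (some (asg n r))
    refine ⟨fun α hα => ?_, fun z hz => ?_⟩
    · rw [← Option.some_injective _ hα]; exact h3
    · cases z with
      | none => exact fun h => h
      | some β =>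
        obtain ⟨r', rfl⟩ := asg_surj β
        intro h5
        rcases lt_trichotomy r' r with h6 | h6 | h6
        · exact h4 r' h6 (hz _ rfl)
        · subst h6
          exact lexLt_irrefl _ h5
        · exact lexLt_asymm (asg_lt h6) h5
  · rw [h2]
    show Optimal x none
    refine ⟨fun α hα => (by cases hα), fun z hz => ?_⟩
    cases z with
    | none => exact fun h => h
    | some β =>
      obtain ⟨r', rfl⟩ := asg_surj β
      exact absurd (hz _ rfl) (h3 r')

end Pool.Agent.W980.St
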